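import Pool.Agent.Lib.MP_05df08_co.BBase

section

set_option autoImplicit false

namespace Pool.Agent.UD

/-- Induction on `r`: `r = 0`: one point. `r + 1`: split by the first letter (`Fin.cons`): the slices
`c_x j' = c (Fin.cons x j')` satisfy the hypothesis; there is a nonzero slice value at some `j'`; since
`∑_x c (Fin.cons x j') = 0` at least two slices are nonzero, each has support `≥ 2^r`. -/
theorem code_support (r b : ℕ) (c : (Fin r → Fin b) → ℚ) (hc : c ≠ 0)
    (h : ∀ (i : Fin r) (j : Fin r → Fin b), ∑ v : Fin b, c (Function.update j i v) = 0) :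
    2 ^ r ≤ (Finset.univ.filter (fun j => c j ≠ 0)).card := by
  classical
  induction r with
  | zero =>
    obtain ⟨j, hj⟩ := Function.ne_iff.1 hc
    rw [pow_zero, Nat.one_le_iff_ne_zero, Finset.card_ne_zero]
    exact ⟨j, Finset.mem_filter.2 ⟨Finset.mem_univ _, hj⟩⟩
  | succ r ih =>
    obtain ⟨j, hj⟩ := Function.ne_iff.1 hc
    let s : Fin b → (Fin r → Fin b) → ℚ := fun x j' => c (Fin.cons x j')
    have hs : ∀ x, ∀ (i : Fin r) (j' : Fin r → Fin b),
        ∑ v, s x (Function.update j' i v) = 0 := by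
      intro x i j'
      have h0 := h i.succ (Fin.cons x j')
      rw [← h0]
      refine Finset.sum_congr rfl fun v _ => ?_
      simp only [s]
      rw [Fin.cons_update]
    have hcons : ∀ x : Fin b, (Fin.cons x (Fin.tail j) : Fin (r+1) → Fin b) =
        Function.update j 0 x := by
      intro x
      ext k
      refine Fin.cases ?_ (fun k => ?_) k
      · simp
      · simp [Fin.tail]
    have h1 : s (j 0) (Fin.tail j) ≠ 0 := by
      simp only [s]
      rw [Fin.cons_self_tail]
      simpa using hj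
    have h2 : ∃ x, x ≠ j 0 ∧ s x (Fin.tail j) ≠ 0 := by
      by_contra hcon
      push Not at hcon
      have h3 := h 0 j
      rw [Finset.sum_eq_single (j 0)] at h3
      · rw [Function.update_eq_self] at h3
        exact hj h3
      · intro x _ hx
        have := hcon x hx
        simp only [s] at this
        rw [hcons] at this
        exact this
      · simp
    obtain ⟨x, hx, hxs⟩ := h2
    have h4 : ∀ x j', s x j' ≠ 0 → 2 ^ r ≤ (Finset.univ.filter (fun j' => s x j' ≠ 0)).card :=
      fun x j' hx => ih (s x) (fun h0 => hx (by rw [h0]; rfl)) (hs x)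
    have h5 : ((Finset.univ.filter (fun j' => s (j 0) j' ≠ 0)).image
        (fun j' => (Fin.cons (j 0) j' : Fin (r+1) → Fin b))) ∪
        ((Finset.univ.filter (fun j' => s x j' ≠ 0)).image
          (fun j' => (Fin.cons x j' : Fin (r+1) → Fin b))) ⊆
        Finset.univ.filter (fun j => c j ≠ 0) := by
      intro k hk
      rw [Finset.mem_union, Finset.mem_image, Finset.mem_image] at hk
      rcases hk with ⟨k', hk', rfl⟩ | ⟨k', hk', rfl⟩
      · simpa [s] using hk'
      · simpa [s] using hk'
    have h6 := Finset.card_le_card h5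
    have h7 : Disjoint ((Finset.univ.filter (fun j' => s (j 0) j' ≠ 0)).image
        (fun j' => (Fin.cons (j 0) j' : Fin (r+1) → Fin b)))
        ((Finset.univ.filter (fun j' => s x j' ≠ 0)).image
          (fun j' => (Fin.cons x j' : Fin (r+1) → Fin b))) := by
      rw [Finset.disjoint_left]
      intro k hk hk'
      rw [Finset.mem_image] at hk hk'
      obtain ⟨a, _, rfl⟩ := hk
      obtain ⟨a', _, h8⟩ := hk'
      exact hx (congr_fun h8 0)
    have hinj : ∀ x : Fin b,
        Function.Injective (fun j' => (Fin.cons x j' : Fin (r+1) → Fin b)) := by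
      intro x a a' haa
      exact (Fin.cons_injective2 haa).2
    rw [Finset.card_union_of_disjoint h7, Finset.card_image_of_injective _ (hinj _),
      Finset.card_image_of_injective _ (hinj _)] at h6
    have h8 := h4 _ _ h1
    have h9 := h4 _ _ hxs
    rw [pow_succ]
    omega

/-- A relation `∑_{j ∈ B} c_j ivec (dl j) = 0`, extended by zero, has all line sums zero (evaluate at the
coordinate `(i, Function.update j i 0)`), so it is zero or its support, contained in `B`, has at
least `2^r` elements (`code_support`). -/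
theorem indep_dl (r b : ℕ) (hb : 0 < b) (B : Finset (Fin r → Fin b)) (hB : B.card < 2 ^ r) :
    LinearIndepOn ℚ (fun j => ivec (dl r b j)) (B : Set (Fin r → Fin b)) := by
  classical
  have : NeZero b := ⟨hb.ne'⟩
  rw [linearIndepOn_finset_iff]
  intro f hf
  by_contra hcon
  push Not at hcon
  obtain ⟨j0, hj0, hfj0⟩ := hcon
  let c : (Fin r → Fin b) → ℚ := fun j => if j ∈ B then f j else 0
  have hc : c ≠ 0 := by
    intro h
    have := congr_fun h j0
    simp only [c, if_pos hj0] at this
    exact hfj0 this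
  have hline : ∀ (i : Fin r) (j : Fin r → Fin b), ∑ v : Fin b, c (Function.update j i v) = 0 := by
    intro i j
    let p : HC r b := ⟨(i, Function.update j i 0), by simp⟩
    have h1 := congr_fun hf p
    rw [Finset.sum_apply] at h1
    have h2 : ∑ j' ∈ B, (f j' • ivec (dl r b j')) p =
        ∑ j' : Fin r → Fin b, if (∀ k, k ≠ i → j k = j' k) then c j' else 0 := by
      rw [← Finset.sum_filter_add_sum_filter_not Finset.univ (fun j' => j' ∈ B)]
      have h3 : ∑ j' ∈ Finset.univ.filter (fun j' => j' ∉ B),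
          (if (∀ k, k ≠ i → j k = j' k) then c j' else 0) = 0 := by
        refine Finset.sum_eq_zero fun j' hj' => ?_
        have : c j' = 0 := by simp [c, (Finset.mem_filter.1 hj').2]
        rw [this]
        simp
      rw [h3, add_zero, Finset.filter_mem_eq_inter, Finset.univ_inter]
      refine Finset.sum_congr rfl fun j' hj' => ?_
      have h4 : (p ∈ dl r b j') ↔ (∀ k, k ≠ i → j k = j' k) := by
        simp only [dl, Finset.mem_filter, Finset.mem_univ, true_and, p]
        refine forall_congr' fun k => ?_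
        refine imp_congr_right fun hk => ?_
        rw [Function.update_of_ne hk]
      simp only [Pi.smul_apply, ivec, smul_eq_mul, h4, c, if_pos hj', mul_ite, mul_one, mul_zero]
    rw [h2] at h1
    have h5 : ∑ j' : Fin r → Fin b, (if (∀ k, k ≠ i → j k = j' k) then c j' else 0) =
        ∑ v : Fin b, c (Function.update j i v) := by
      rw [← Finset.sum_filter]
      symm
      refine Finset.sum_bij (fun v _ => Function.update j i v) ?_ ?_ ?_ ?_
      · intro v _
        rw [Finset.mem_filter]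
        refine ⟨Finset.mem_univ _, fun k hk => ?_⟩
        rw [Function.update_of_ne hk]
      · intro v _ v' _ hvv
        have := congr_fun hvv i
        simpa using this
      · intro j' hj'
        refine ⟨j' i, Finset.mem_univ _, ?_⟩
        ext k
        by_cases hk : k = i
        · subst hk; simp
        · rw [Function.update_of_ne hk, (Finset.mem_filter.1 hj').2 k hk]
      · intro v _
        rfl
    rw [← h5, h1]
    rfl
  have h6 := code_support r b c hc hline
  have h7 : (Finset.univ.filter (fun j => c j ≠ 0)) ⊆ B := by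
    intro j hj
    by_contra hjB
    apply (Finset.mem_filter.1 hj).2
    simp [c, hjB]
  have h8 := Finset.card_le_card h7
  omega

end Pool.Agent.UD
end

section

set_option autoImplicit false

namespace Pool.Agent.UD

/-- Choose `r ≥ 10` with `|C| * r < 2^(2r-3)` and `N * 2^(2r+3) ≤ 16^(r^2)`. With `d = (16^r)^r`,
`h = r (16^r)^(r-1)`, `d = 16^r (16^r)^(r-1)`: `m ≥ d v n / 2^(2r+3)`, `m ≤ n^2` give `n ≥ d v / 2^(2r+3) ≥ N`;
`C n log n ≤ |C| n h v log 2 ≤ |C| n h v < d v n / 2^(2r+3) ≤ m` (`log n ≥ 0`, `log 2 < 1`). -/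
theorem numeric (C : ℝ) (N : ℕ) : ∃ r : ℕ, 10 ≤ r ∧ ∀ n m v : ℕ, 0 < n → 1 ≤ v → m ≤ n * n →
    n ≤ 2 ^ ((r * (16 ^ r) ^ (r - 1)) * v) → (16 ^ r) ^ r * v * n ≤ 2 ^ (2 * r + 3) * m →
    N ≤ n ∧ C * n * Real.log n < m := by
  obtain ⟨r, hr⟩ : ∃ r : ℕ, r = 10 + N + ⌈8 * |C|⌉₊ := ⟨_, rfl⟩
  have hC : 8 * |C| ≤ r := by
    have h1 := Nat.le_ceil (8 * |C|)
    have h2 : ((⌈8 * |C|⌉₊ : ℕ) : ℝ) ≤ r := by exact_mod_cast (by omega : ⌈8 * |C|⌉₊ ≤ r)
    linarith
  have hr10 : 10 ≤ r := by omega
  refine ⟨r, hr10, ?_⟩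
  intro n m v hn hv hmn hn2 hm
  obtain ⟨H, hH⟩ : ∃ H : ℕ, H = (16 ^ r) ^ (r - 1) := ⟨_, rfl⟩
  have hHpos : 0 < H := by rw [hH]; positivity
  have hd : (16 ^ r) ^ r = 16 ^ r * H := by
    rw [hH, ← pow_succ']
    congr 1
    omega
  rw [hd] at hm
  rw [← hH] at hn2
  have hrr : r < 2 ^ r := Nat.lt_two_pow_self
  have h16 : (16 : ℕ) ^ r = 2 ^ r * 2 ^ r * 2 ^ (2 * r) := by
    rw [show (16 : ℕ) = 2 ^ 4 by norm_num, ← pow_mul, ← pow_add, ← pow_add]
    congr 1
    omega
  have h23 : (2 : ℕ) ^ (2 * r + 3) = 8 * 2 ^ (2 * r) := by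
    rw [pow_add]
    ring
  constructor
  · -- N ≤ n
    have h1 : 16 ^ r * H * v * n ≤ 2 ^ (2 * r + 3) * n * n := by
      calc 16 ^ r * H * v * n ≤ 2 ^ (2 * r + 3) * m := hm
        _ ≤ 2 ^ (2 * r + 3) * (n * n) := Nat.mul_le_mul_left _ hmn
        _ = _ := by ring
    have h2 : 16 ^ r * H * v ≤ 2 ^ (2 * r + 3) * n := Nat.le_of_mul_le_mul_right h1 hn
    have h3 : 16 ^ r * 16 ≤ 16 ^ r * H * v := by
      have h4 : 16 ≤ H := by
        rw [hH]
        calc 16 = (16 ^ 1) ^ 1 := by norm_num
          _ ≤ (16 ^ r) ^ 1 := by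
            apply Nat.pow_le_pow_left
            exact Nat.pow_le_pow_right (by norm_num) (by omega)
          _ ≤ (16 ^ r) ^ (r - 1) :=
            Nat.pow_le_pow_right (by positivity) (by omega)
      calc 16 ^ r * 16 ≤ 16 ^ r * H := Nat.mul_le_mul_left _ h4
        _ = 16 ^ r * H * 1 := by ring
        _ ≤ 16 ^ r * H * v := Nat.mul_le_mul_left _ hv
    have h5 : 16 ^ r * 16 ≤ 8 * 2 ^ (2 * r) * n := by
      rw [← h23]
      exact h3.trans h2
    rw [h16] at h5
    have hp : 0 < (2 : ℕ) ^ (2 * r) := by positivity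
    have h6 : 2 ^ r * 2 ^ r * 16 ≤ 8 * n := by
      apply Nat.le_of_mul_le_mul_right _ hp
      calc 2 ^ r * 2 ^ r * 16 * 2 ^ (2 * r) = 2 ^ r * 2 ^ r * 2 ^ (2 * r) * 16 := by ring
        _ ≤ 8 * 2 ^ (2 * r) * n := h5
        _ = 8 * n * 2 ^ (2 * r) := by ring
    have h7 : r * 1 ≤ 2 ^ r * 2 ^ r := Nat.mul_le_mul hrr.le (by omega)
    omega
  · have hnR : (0 : ℝ) < n := by exact_mod_cast hn
    have hvR : (1 : ℝ) ≤ v := by exact_mod_cast hv
    have hHR : (0 : ℝ) < H := by exact_mod_cast hHpos
    have hrR : (0 : ℝ) < r := by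
      have : (10 : ℝ) ≤ r := by exact_mod_cast hr10
      linarith
    have hlog : Real.log n ≤ (r * H * v : ℝ) := by
      have h1 : (n : ℝ) ≤ (2 : ℝ) ^ (r * H * v) := by exact_mod_cast hn2
      have h2 := Real.log_le_log hnR h1
      rw [Real.log_pow] at h2
      have h3 : Real.log 2 ≤ 1 := by
        have := Real.log_two_lt_d9
        linarith
      push_cast at h2
      calc Real.log n ≤ (r * H * v : ℝ) * Real.log 2 := h2
        _ ≤ (r * H * v : ℝ) * 1 := mul_le_mul_of_nonneg_left h3 (by positivity)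
        _ = _ := mul_one _
    have hlog0 : 0 ≤ Real.log n := Real.log_natCast_nonneg n
    have h1 : C * n * Real.log n ≤ |C| * n * (r * H * v) := by
      calc C * n * Real.log n = C * (n * Real.log n) := by ring
        _ ≤ |C| * (n * Real.log n) := mul_le_mul_of_nonneg_right (le_abs_self C) (by positivity)
        _ ≤ |C| * (n * (r * H * v)) := by
          apply mul_le_mul_of_nonneg_left _ (abs_nonneg C)
          exact mul_le_mul_of_nonneg_left hlog hnR.le
        _ = _ := by ring
    have hmR : (16 : ℝ) ^ r * H * v * n ≤ 2 ^ (2 * r + 3) * m := by exact_mod_cast hm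
    have h16R : (16 : ℝ) ^ r = 2 ^ r * 2 ^ r * 2 ^ (2 * r) := by exact_mod_cast h16
    have h23R : (2 : ℝ) ^ (2 * r + 3) = 8 * 2 ^ (2 * r) := by exact_mod_cast h23
    rw [h16R, h23R] at hmR
    have hp : (0 : ℝ) < 2 ^ (2 * r) := by positivity
    have h2 : (2 : ℝ) ^ r * 2 ^ r * H * v * n ≤ 8 * m := by
      apply le_of_mul_le_mul_right _ hp
      calc (2 : ℝ) ^ r * 2 ^ r * H * v * n * 2 ^ (2 * r)
          = 2 ^ r * 2 ^ r * 2 ^ (2 * r) * H * v * n := by ring
        _ ≤ 8 * 2 ^ (2 * r) * m := hmR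
        _ = 8 * m * 2 ^ (2 * r) := by ring
    have hrrR : (r : ℝ) < 2 ^ r := by exact_mod_cast hrr
    have h3 : 8 * (|C| * n * (r * H * v)) < 2 ^ r * 2 ^ r * H * v * n := by
      have h4 : 8 * |C| * r < 2 ^ r * 2 ^ r := by
        calc 8 * |C| * r ≤ r * r := mul_le_mul_of_nonneg_right hC hrR.le
          _ < 2 ^ r * 2 ^ r := by nlinarith
      have h5 : 0 < H * v * n * (1 : ℝ) := by positivity
      have h6 := mul_lt_mul_of_pos_right h4 h5
      calc 8 * (|C| * n * (r * H * v)) = 8 * |C| * r * (H * v * n * 1) := by ring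
        _ < 2 ^ r * 2 ^ r * (H * v * n * 1) := h6
        _ = _ := by ring
    linarith

/-- `t = 4 r^2`, `ω = 4 r h`, `h = r 16^(r(r-1))`: `2 ω ≤ 2^(t+1)`, `2 t < 2^r`. -/
theorem params_ok (r : ℕ) (hr : 10 ≤ r) :
    2 * (4 * r * (r * (16 ^ r) ^ (r - 1))) ≤ 2 ^ (4 * r ^ 2 + 1) ∧ 2 * (4 * r ^ 2) < 2 ^ r := by
  have hrr : r < 2 ^ r := Nat.lt_two_pow_self
  constructor
  · have h1 : (16 ^ r) ^ (r - 1) = 2 ^ (4 * r * (r - 1)) := by
      rw [show (16 : ℕ) = 2 ^ 4 by norm_num, ← pow_mul, ← pow_mul]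
      congr 1
      ring
    have h2 : 4 * r ^ 2 + 1 = 4 * r * (r - 1) + (4 * r + 1) := by
      obtain ⟨k, rfl⟩ : ∃ k, r = k + 1 := ⟨r - 1, by omega⟩
      simp only [Nat.add_sub_cancel]
      ring
    rw [h1, h2, pow_add]
    have h3 : 2 * (4 * r * r) ≤ 2 ^ (4 * r + 1) := by
      have h4 : 4 * r * r ≤ 2 ^ (4 * r) := by
        have h5 : (2 : ℕ) ^ (4 * r) = 2 ^ (2 * r) * (2 ^ r * 2 ^ r) := by
          rw [← pow_add, ← pow_add]
          congr 1
          omega
        have h6 : 4 ≤ 2 ^ (2 * r) := by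
          calc 4 = 2 ^ 2 := by norm_num
            _ ≤ 2 ^ (2 * r) := Nat.pow_le_pow_right (by norm_num) (by omega)
        rw [h5, mul_assoc]
        exact Nat.mul_le_mul h6 (Nat.mul_le_mul hrr.le hrr.le)
      rw [pow_succ]
      omega
    calc 2 * (4 * r * (r * 2 ^ (4 * r * (r - 1))))
        = 2 ^ (4 * r * (r - 1)) * (2 * (4 * r * r)) := by ring
      _ ≤ 2 ^ (4 * r * (r - 1)) * 2 ^ (4 * r + 1) := Nat.mul_le_mul_left _ h3
  · induction r, hr using Nat.le_induction with
    | base => norm_num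
    | succ k hk ih =>
      have h1 := ih Nat.lt_two_pow_self
      have h2 : (2 : ℕ) ^ (k + 1) = 2 ^ k + 2 ^ k := by
        rw [pow_succ]
        ring
      rw [h2]
      nlinarith

end Pool.Agent.UD
end

section

set_option autoImplicit false

namespace Pool.Agent.UD

/-- number of vertices: `card (Vx J l) = choose(d, l) + choose(d, l+1) ≤ 2 choose(d, l+1)` for
`d = 2 (l + 1)` (`Nat.choose_le_middle` or similar) -/
theorem card_Vx_le (J : Type*) [Fintype J] [DecidableEq J] (l : ℕ)
    (hl : Fintype.card J = 2 * (l + 1)) :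
    Fintype.card (Vx J l) ≤ 2 * (Fintype.card J).choose (l + 1) := by
  classical
  rw [Fintype.card_subtype, Finset.filter_or]
  refine (Finset.card_union_le _ _).trans ?_
  rw [Finset.univ_filter_card_eq, Finset.univ_filter_card_eq, Finset.card_powersetCard,
    Finset.card_powersetCard, Finset.card_univ]
  have h1 : (Fintype.card J).choose l ≤ (Fintype.card J).choose (l + 1) := by
    have h2 := Nat.choose_le_middle l (Fintype.card J)
    have h3 : Fintype.card J / 2 = l + 1 := by omega
    rwa [h3] at h2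
  omega

theorem card_Cfg (J Hc : Type*) [Fintype J] [DecidableEq J] [Fintype Hc] [DecidableEq Hc] (l : ℕ) :
    Fintype.card (Cfg J Hc l) = 2 ^ (Fintype.card Hc * Fintype.card (Vx J l)) := by
  rw [Fintype.card_fun, Fintype.card_finset, ← pow_mul]

end Pool.Agent.UD
end

section

set_option autoImplicit false

namespace Pool.Agent.UD

/-- `∑_i #{v : Fin r → Fin b | v i = 0} = r b^(r-1)`. -/
theorem card_HC (r b : ℕ) (hb : 0 < b) (hr : 0 < r) : Fintype.card (HC r b) = r * b ^ (r - 1) := by
  classical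
  have : NeZero b := ⟨hb.ne'⟩
  have h1 : Fintype.card (HC r b) =
      ∑ i : Fin r, (Finset.univ.filter (fun v : Fin r → Fin b => v i = 0)).card := by
    rw [Fintype.card_subtype]
    have h2 : (Finset.univ.filter
        (fun p : Fin r × (Fin r → Fin b) => (p.2 p.1 : ℕ) = 0)) =
        Finset.univ.biUnion (fun i : Fin r =>
          (Finset.univ.filter (fun v : Fin r → Fin b => v i = 0)).image (Prod.mk i)) := by
      ext p
      rw [Finset.mem_filter, Finset.mem_biUnion]
      constructor
      · rintro ⟨_, h⟩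
        refine ⟨p.1, Finset.mem_univ _, Finset.mem_image.2 ⟨p.2, ?_, rfl⟩⟩
        rw [Finset.mem_filter]
        exact ⟨Finset.mem_univ _, Fin.ext (by simpa using h)⟩
      · rintro ⟨i, _, h⟩
        rw [Finset.mem_image] at h
        obtain ⟨v, hv, rfl⟩ := h
        refine ⟨Finset.mem_univ _, ?_⟩
        simp only
        rw [(Finset.mem_filter.1 hv).2]
        simp
    rw [h2, Finset.card_biUnion]
    · refine Finset.sum_congr rfl fun i _ => ?_
      rw [Finset.card_image_of_injective _ (Prod.mk_right_injective i)]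
    · intro i _ i' _ hii
      change Disjoint _ _
      rw [Finset.disjoint_left]
      intro p hp hp'
      rw [Finset.mem_image] at hp hp'
      obtain ⟨v, _, rfl⟩ := hp
      obtain ⟨v', _, h⟩ := hp'
      exact hii (Prod.mk.inj h).1.symm
  have h3 : ∀ i : Fin r, (Finset.univ.filter (fun v : Fin r → Fin b => v i = 0)).card =
      b ^ (r - 1) := by
    intro i
    have h4 : (Finset.univ.filter (fun v : Fin r → Fin b => v i = 0)) =
        Fintype.piFinset (fun k => if k = i then ({0} : Finset (Fin b)) else Finset.univ) := by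
      ext v
      simp only [Finset.mem_filter, Finset.mem_univ, true_and, Fintype.mem_piFinset]
      constructor
      · intro h k
        by_cases hk : k = i
        · subst hk; simp [h]
        · simp [hk]
      · intro h
        have := h i
        simpa using this
    rw [h4, Fintype.card_piFinset]
    rw [← Finset.mul_prod_erase Finset.univ _ (Finset.mem_univ i)]
    have h5 : ∀ k ∈ Finset.univ.erase i,
        (if k = i then ({0} : Finset (Fin b)) else Finset.univ).card = b := by
      intro k hk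
      rw [if_neg (Finset.mem_erase.1 hk).1]
      simp
    rw [Finset.prod_congr rfl h5, Finset.prod_const, Finset.card_erase_of_mem (Finset.mem_univ _)]
    simp
  rw [h1, Finset.sum_congr rfl fun i _ => h3 i]
  simp

/-- For every `i : Fin r` there is exactly one `p ∈ dl r b j` with first component `i`, namely
`(i, Function.update j i 0)`. -/
theorem card_dl (r b : ℕ) (hb : 0 < b) (j : Fin r → Fin b) : (dl r b j).card = r := by
  classical
  have : NeZero b := ⟨hb.ne'⟩
  have h0 : ∀ i : Fin r, ((i, Function.update j i 0).2 (i, Function.update j i 0).1 : ℕ) = 0 := by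
    intro i
    simp
  let F : Fin r → HC r b := fun i => ⟨(i, Function.update j i 0), h0 i⟩
  have hF : Function.Injective F := fun i i' h => congr_arg (fun p : HC r b => p.1.1) h
  have h1 : dl r b j = (Finset.univ : Finset (Fin r)).image F := by
    ext p
    rw [Finset.mem_image]
    unfold dl
    rw [Finset.mem_filter]
    constructor
    · rintro ⟨_, h⟩
      refine ⟨p.1.1, Finset.mem_univ _, ?_⟩
      apply Subtype.ext
      refine Prod.ext rfl ?_
      funext k
      change Function.update j p.1.1 0 k = p.1.2 k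
      by_cases hk : k = p.1.1
      · rw [hk, Function.update_self]
        exact Fin.ext (by simpa using p.2.symm)
      · rw [Function.update_of_ne hk]
        exact (h k hk).symm
    · rintro ⟨i, _, rfl⟩
      refine ⟨Finset.mem_univ _, fun k hk => ?_⟩
      exact Function.update_of_ne hk _ _
  rw [h1, Finset.card_image_of_injective _ hF, Finset.card_univ, Fintype.card_fin]

end Pool.Agent.UD
end

section

set_option autoImplicit false

namespace Pool.Agent.UD

theorem B3_finite_sm (Hc : Type*) [Fintype Hc] : {a : Hc → ℤ | Sm a}.Finite := by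
  classical
  have h : {a : Hc → ℤ | Sm a} ⊆ Set.pi Set.univ (fun _ : Hc => ({-1, 0, 1} : Set ℤ)) := by
    intro a ha i _
    rcases ha i with h | h | h <;> simp [h]
  exact (Set.Finite.pi (fun _ => Set.toFinite _)).subset h

open MvPolynomial in
noncomputable def B3_lin {Hc : Type*} [Fintype Hc] (a : Hc → ℤ) : MvPolynomial Hc ℝ :=
  ∑ i, C (a i : ℝ) * X i

open MvPolynomial in
theorem B3_lin_eval {Hc : Type*} [Fintype Hc] (a : Hc → ℤ) (g : Hc → ℝ) :
    eval g (B3_lin a) = ∑ i, (a i : ℝ) * g i := by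
  simp [B3_lin]

/-- Generic positive weights exist. The set of `Sm` vectors is finite. For `a ≠ 0` the linear form
`∑ a_i X_i` is a nonzero `MvPolynomial`; for `a,b,a',b'` such that the identity fails for some `X`, the
polynomial `(∑ a X)(∑ b' X) - (∑ b X)(∑ a' X)` is nonzero. The product of these finitely many polynomials
is nonzero, so it does not vanish at some point with all coordinates in a large finite set of
positive reals (`MvPolynomial.eq_zero_of_eval_zero_at_prod_finset` or similar, or a one variable argument). -/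
theorem exists_gen (Hc : Type*) [Fintype Hc] : ∃ g : Hc → ℝ, Gen g := by
  classical
  let A : Finset (Hc → ℤ) := (B3_finite_sm Hc).toFinset
  have hA : ∀ a, a ∈ A ↔ Sm a := fun a => by simp [A]
  let P1 : MvPolynomial Hc ℝ := ∏ a ∈ A.filter (fun a => a ≠ 0), B3_lin a
  let q : (Hc → ℤ) × (Hc → ℤ) × (Hc → ℤ) × (Hc → ℤ) → MvPolynomial Hc ℝ :=
    fun p => B3_lin p.1 * B3_lin p.2.2.2 - B3_lin p.2.1 * B3_lin p.2.2.1
  let P2 : MvPolynomial Hc ℝ := ∏ p ∈ (A ×ˢ A ×ˢ A ×ˢ A).filter (fun p => q p ≠ 0), q p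
  have h1 : P1 ≠ 0 := by
    rw [Finset.prod_ne_zero_iff]
    intro a ha h0
    apply (Finset.mem_filter.1 ha).2
    funext i
    have h2 := B3_lin_eval a (Pi.single i (1 : ℝ))
    rw [h0, map_zero] at h2
    have h3 : ∑ k, (a k : ℝ) * (Pi.single i (1 : ℝ) : Hc → ℝ) k = a i := by
      rw [Finset.sum_eq_single i]
      · simp
      · intro k _ hk
        rw [Pi.single_eq_of_ne hk, mul_zero]
      · simp
    rw [h3] at h2
    exact_mod_cast h2.symm
  have h2 : P2 ≠ 0 := by
    rw [Finset.prod_ne_zero_iff]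
    intro p hp
    exact (Finset.mem_filter.1 hp).2
  have h3 : P1 * P2 ≠ 0 := mul_ne_zero h1 h2
  have h4 : ∃ g : Hc → ℝ, (∀ i, 0 < g i) ∧ MvPolynomial.eval g (P1 * P2) ≠ 0 := by
    by_contra hcon
    push Not at hcon
    apply h3
    refine MvPolynomial.funext_set (fun _ => Set.Ioi (0 : ℝ)) (fun _ => Set.Ioi_infinite 0) ?_
    intro g hg
    rw [map_zero]
    exact hcon g fun i => hg i (Set.mem_univ _)
  obtain ⟨g, hg, hne⟩ := h4
  rw [map_mul] at hne
  have h5 : MvPolynomial.eval g P1 ≠ 0 := left_ne_zero_of_mul hne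
  have h6 : MvPolynomial.eval g P2 ≠ 0 := right_ne_zero_of_mul hne
  simp only [P1, P2, map_prod, Finset.prod_ne_zero_iff] at h5 h6
  refine ⟨g, hg, ?_, ?_⟩
  · intro a ha ha0
    rw [← B3_lin_eval]
    exact h5 a (Finset.mem_filter.2 ⟨(hA a).2 ha, ha0⟩)
  · intro a b a' b' ha hb ha' hb' heq X
    by_contra hcon
    have h7 : q (a, b, a', b') ≠ 0 := by
      intro h0
      apply hcon
      have h8 : MvPolynomial.eval X (q (a, b, a', b')) = 0 := by rw [h0, map_zero]
      simp only [q, map_sub, map_mul, B3_lin_eval] at h8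
      linarith
    have h9 := h6 (a, b, a', b') (Finset.mem_filter.2 ⟨by
      simp only [Finset.mem_product, hA]
      exact ⟨ha, hb, ha', hb'⟩, h7⟩)
    apply h9
    simp only [q, map_sub, map_mul, B3_lin_eval]
    linarith

end Pool.Agent.UD
end

section

set_option autoImplicit false
set_option linter.unusedSectionVars false

namespace Pool.Agent.UD

variable {J Hc : Type*} [Fintype J] [DecidableEq J] [Fintype Hc] [DecidableEq Hc]

/-- If `a ∦ b` and `(a.X)(b'.X) = (b.X)(a'.X)` for all `X` then `(a', b') = c (a, b)`. On the hyperplane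
`a.X = 0`: `(b.X)(a'.X) = 0`; there is `X2` in it with `b.X2 ≠ 0` (namely `X2 = a_k e_i - a_i e_k` up to sign);
if some `X1` in it had `a'.X1 ≠ 0`, then one of `X1`, `X2`, `X1 + X2`, `X1 - X2` would have both `≠ 0`. So
`a'` vanishes on the kernel of `a`, hence `a' = c a`, and then `(a.X)((b' - c b).X) = 0` for all `X`, so
`b' = c b`. -/
theorem forms (a b a' b' : Hc → ℝ)
    (h : ∀ X : Hc → ℝ, (∑ i, a i * X i) * (∑ i, b' i * X i) = (∑ i, b i * X i) * (∑ i, a' i * X i))
    (i k : Hc) (hik : a i * b k ≠ a k * b i) :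
    ∃ c : ℝ, (∀ j, a' j = c * a j) ∧ ∀ j, b' j = c * b j := by
  have hd : a i * b k - a k * b i ≠ 0 := sub_ne_zero.mpr hik
  set δ := a i * b k - a k * b i with hδ
  have h' : ∀ X : Hc → ℝ, (a ⬝ᵥ X) * (b' ⬝ᵥ X) = (b ⬝ᵥ X) * (a' ⬝ᵥ X) := h
  let u : Hc → ℝ := (b k / δ) • Pi.single i 1 - (b i / δ) • Pi.single k 1
  let v : Hc → ℝ := (a i / δ) • Pi.single k 1 - (a k / δ) • Pi.single i 1
  have dotu : ∀ f : Hc → ℝ, f ⬝ᵥ u = (b k / δ) * f i - (b i / δ) * f k := by
    intro f
    simp [u, dotProduct_sub, dotProduct_smul]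
  have dotv : ∀ f : Hc → ℝ, f ⬝ᵥ v = (a i / δ) * f k - (a k / δ) * f i := by
    intro f
    simp [v, dotProduct_sub, dotProduct_smul]
  have au : a ⬝ᵥ u = 1 := by
    rw [dotu, div_mul_eq_mul_div, div_mul_eq_mul_div, ← sub_div, div_eq_one_iff_eq hd, hδ]
    ring
  have bu : b ⬝ᵥ u = 0 := by
    rw [dotu]; ring
  have av : a ⬝ᵥ v = 0 := by
    rw [dotv]; ring
  have bv : b ⬝ᵥ v = 1 := by
    rw [dotv, div_mul_eq_mul_div, div_mul_eq_mul_div, ← sub_div, div_eq_one_iff_eq hd, hδ]
  have b'u : b' ⬝ᵥ u = 0 := by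
    have := h' u
    rw [au, bu] at this
    linarith
  have a'v : a' ⬝ᵥ v = 0 := by
    have := h' v
    rw [av, bv] at this
    linarith
  have huv : b' ⬝ᵥ v = a' ⬝ᵥ u := by
    have := h' (u + v)
    simp only [dotProduct_add] at this
    rw [au, av, bu, bv, b'u, a'v] at this
    linarith
  refine ⟨a' ⬝ᵥ u, ?_, ?_⟩
  · intro j
    let Z : Hc → ℝ := Pi.single j 1 - a j • u - b j • v
    have dotZ : ∀ f : Hc → ℝ, f ⬝ᵥ Z = f j - a j * (f ⬝ᵥ u) - b j * (f ⬝ᵥ v) := by
      intro f
      simp [Z, dotProduct_sub, dotProduct_smul]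
    have aZ : a ⬝ᵥ Z = 0 := by rw [dotZ, au, av]; ring
    have bZ : b ⬝ᵥ Z = 0 := by rw [dotZ, bu, bv]; ring
    have := h' (v + Z)
    simp only [dotProduct_add] at this
    rw [av, bv, aZ, bZ, a'v] at this
    have hz : a' ⬝ᵥ Z = 0 := by linarith
    rw [dotZ, a'v] at hz
    linarith
  · intro j
    let Z : Hc → ℝ := Pi.single j 1 - a j • u - b j • v
    have dotZ : ∀ f : Hc → ℝ, f ⬝ᵥ Z = f j - a j * (f ⬝ᵥ u) - b j * (f ⬝ᵥ v) := by
      intro f
      simp [Z, dotProduct_sub, dotProduct_smul]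
    have aZ : a ⬝ᵥ Z = 0 := by rw [dotZ, au, av]; ring
    have bZ : b ⬝ᵥ Z = 0 := by rw [dotZ, bu, bv]; ring
    have := h' (u + Z)
    simp only [dotProduct_add] at this
    rw [au, bu, aZ, bZ, b'u] at this
    have hz : b' ⬝ᵥ Z = 0 := by linarith
    rw [dotZ, b'u, huv] at hz
    linarith

private theorem B4_iz01 (A : Finset Hc) (i : Hc) : iz A i = 0 ∨ iz A i = 1 := by
  unfold iz
  split_ifs
  · right; rfl
  · left; rfl

private theorem B4_iz_inj (A B : Finset Hc) (h : ∀ i, iz A i - iz B i = 0) : A = B := by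
  ext i
  have := h i
  unfold iz at this
  by_cases h1 : i ∈ A <;> by_cases h2 : i ∈ B <;> simp [h1, h2] at this ⊢

private theorem B4_sm (A B : Finset Hc) : Sm (fun i => iz A i - iz B i) := by
  intro i
  rcases B4_iz01 A i with p | p <;> rcases B4_iz01 B i with q | q <;> simp [p, q]

private theorem B4_gs (g : Hc → ℝ) (A : Finset Hc) : gs g A = ∑ i, (iz A i : ℝ) * g i := by
  unfold gs iz
  simp

private theorem B4_gsd (g : Hc → ℝ) (A B : Finset Hc) :
    gs g A - gs g B = ∑ i, ((iz A i - iz B i : ℤ) : ℝ) * g i := by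
  rw [B4_gs, B4_gs, ← Finset.sum_sub_distrib]
  refine Finset.sum_congr rfl fun i _ => ?_
  push_cast
  ring

/-- Let `a_S = iz (y S) - iz (x S)`, `b_S = iz (z S) - iz (x S)` (entries in {-1,0,1}, sign opposite to the
bit of `x S`; so at a coordinate where both are nonzero they are equal). `gs g (y S) - gs g (x S) = ∑ a_S i g i`.
CASE I: some `S0` has `a_{S0} ∦ b_{S0}` (some `2 x 2` minor `≠ 0`). `Gen.g2` for `(S0, T)` and `forms` give
`(a_T, b_T) = c_T (a, b)` with real `c_T`; as `a ≠ 0` has an entry `±1`, `c_T ∈ {-1,0,1}`: `σ T = c_T`.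
CASE II: all minors of all `(a_S, b_S)` vanish. Then for every `S`: `a_S = 0` or `b_S = 0` or `a_S = b_S` (if both
are nonzero they are proportional with equal supports, and equal on it). If some `S` has `a_S ≠ 0`, `b_S = 0`:
by `hpar` and `g1`, `b_T = 0` for all `T`, so `z = x`, contradiction; if `a_S = 0`, `b_S ≠ 0`: `y = x`,
contradiction; otherwise `a_S = b_S` for all `S`, so `y = z`, contradiction. -/
theorem tensor_form {l : ℕ} (g : Hc → ℝ) (hg : Gen g) (x y z : Cfg J Hc l) (hxy : x ≠ y)
    (hyz : y ≠ z) (hxz : x ≠ z)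
    (hpar : ∀ S T : Vx J l, (gs g (z S) - gs g (x S)) * (gs g (y T) - gs g (x T)) =
      (gs g (y S) - gs g (x S)) * (gs g (z T) - gs g (x T))) :
    ∃ (σ : Vx J l → ℤ) (a b : Hc → ℤ), Sm a ∧ Sm b ∧ (∀ S, σ S = -1 ∨ σ S = 0 ∨ σ S = 1) ∧
      (∃ S, σ S ≠ 0) ∧ (∃ i k, a i * b k ≠ a k * b i) ∧
      (∀ S i, iz (y S) i - iz (x S) i = σ S * a i) ∧
      (∀ S i, iz (z S) i - iz (x S) i = σ S * b i) := by
  obtain ⟨A, hA⟩ : ∃ A : Vx J l → Hc → ℤ, ∀ S i, A S i = iz (y S) i - iz (x S) i :=
    ⟨_, fun _ _ => rfl⟩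
  obtain ⟨B, hB⟩ : ∃ B : Vx J l → Hc → ℤ, ∀ S i, B S i = iz (z S) i - iz (x S) i :=
    ⟨_, fun _ _ => rfl⟩
  have smA : ∀ S, Sm (A S) := by
    intro S i
    rw [hA]
    exact B4_sm (y S) (x S) i
  have smB : ∀ S, Sm (B S) := by
    intro S i
    rw [hB]
    exact B4_sm (z S) (x S) i
  have gA : ∀ S, gs g (y S) - gs g (x S) = ∑ i, (A S i : ℝ) * g i := by
    intro S
    rw [B4_gsd]
    simp only [hA]
  have gB : ∀ S, gs g (z S) - gs g (x S) = ∑ i, (B S i : ℝ) * g i := by
    intro S
    rw [B4_gsd]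
    simp only [hB]
  have hpar' : ∀ S T : Vx J l, (∑ i, (B S i : ℝ) * g i) * (∑ i, (A T i : ℝ) * g i) =
      (∑ i, (A S i : ℝ) * g i) * (∑ i, (B T i : ℝ) * g i) := by
    intro S T
    rw [← gA, ← gA, ← gB, ← gB]
    exact hpar S T
  by_cases hI : ∃ S0 i k, A S0 i * B S0 k ≠ A S0 k * B S0 i
  · obtain ⟨S0, i, k, hik⟩ := hI
    have hne : ∃ i1, A S0 i1 ≠ 0 := by
      by_contra hcon
      push Not at hcon
      exact hik (by rw [hcon i, hcon k]; ring)
    obtain ⟨i1, hi1⟩ := hne
    have hsq : A S0 i1 * A S0 i1 = 1 := by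
      rcases smA S0 i1 with s | s | s
      · rw [s]; norm_num
      · exact absurd s hi1
      · rw [s]; norm_num
    have hform : ∀ T, ∃ c : ℝ, (∀ j, (A T j : ℝ) = c * (A S0 j : ℝ)) ∧
        ∀ j, (B T j : ℝ) = c * (B S0 j : ℝ) := by
      intro T
      refine forms (fun j => (A S0 j : ℝ)) (fun j => (B S0 j : ℝ)) (fun j => (A T j : ℝ))
        (fun j => (B T j : ℝ)) ?_ i k ?_
      · exact hg.g2 (A S0) (B S0) (A T) (B T) (smA S0) (smB S0) (smA T) (smB T)
          (hpar' S0 T).symm
      · intro hc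
        apply hik
        have hc' : (A S0 i : ℝ) * (B S0 k : ℝ) = (A S0 k : ℝ) * (B S0 i : ℝ) := hc
        exact_mod_cast hc'
    have hc : ∀ T, (∀ j, A T j = (A T i1 * A S0 i1) * A S0 j) ∧
        (∀ j, B T j = (A T i1 * A S0 i1) * B S0 j) := by
      intro T
      obtain ⟨c, hc1, hc2⟩ := hform T
      have hcv : c = ((A T i1 * A S0 i1 : ℤ) : ℝ) := by
        push_cast
        rw [hc1 i1]
        have : (A S0 i1 : ℝ) * (A S0 i1 : ℝ) = 1 := by exact_mod_cast hsq
        linear_combination (-c) * this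
      constructor
      · intro j
        have := hc1 j
        rw [hcv] at this
        exact_mod_cast this
      · intro j
        have := hc2 j
        rw [hcv] at this
        exact_mod_cast this
    refine ⟨fun T => A T i1 * A S0 i1, A S0, B S0, smA S0, smB S0, ?_, ⟨S0, ?_⟩, ⟨i, k, hik⟩,
      ?_, ?_⟩
    · intro T
      rcases smA T i1 with s | s | s <;> rcases smA S0 i1 with t | t | t <;>
        simp [s, t]
    · show A S0 i1 * A S0 i1 ≠ 0
      rw [hsq]; norm_num
    · intro T j
      rw [← hA]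
      exact (hc T).1 j
    · intro T j
      rw [← hB]
      exact (hc T).2 j
  · exfalso
    push Not at hI
    have hzero_of : ∀ S, (∑ i, (A S i : ℝ) * g i) = 0 → A S = 0 := by
      intro S h
      by_contra hcon
      exact hg.g1 (A S) (smA S) hcon h
    have hzero_of' : ∀ S, (∑ i, (B S i : ℝ) * g i) = 0 → B S = 0 := by
      intro S h
      by_contra hcon
      exact hg.g1 (B S) (smB S) hcon h
    have tri : ∀ S, A S = 0 ∨ B S = 0 ∨ A S = B S := by
      intro S
      by_cases h1 : A S = 0
      · exact Or.inl h1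
      by_cases h2 : B S = 0
      · exact Or.inr (Or.inl h2)
      right; right
      obtain ⟨i, hi⟩ : ∃ i, A S i ≠ 0 := by
        by_contra hcon
        push Not at hcon
        exact h1 (funext hcon)
      obtain ⟨k, hk⟩ : ∃ k, B S k ≠ 0 := by
        by_contra hcon
        push Not at hcon
        exact h2 (funext hcon)
      have hik := hI S i k
      have hAk : A S k ≠ 0 := by
        intro h
        rw [h, zero_mul] at hik
        exact (mul_ne_zero hi hk) hik
      have hBi : B S i ≠ 0 := by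
        intro h
        rw [h, mul_zero] at hik
        exact (mul_ne_zero hi hk) hik
      have heq : A S i = B S i := by
        rw [hA] at hi ⊢
        rw [hB] at hBi ⊢
        rcases B4_iz01 (x S) i with p1 | p1 <;> rcases B4_iz01 (y S) i with p2 | p2 <;>
          rcases B4_iz01 (z S) i with p3 | p3 <;> rw [p1, p2] at hi <;> rw [p1, p3] at hBi <;>
          rw [p1, p2, p3] <;> simp_all
      funext j
      have hij := hI S i j
      rw [← heq] at hij
      have : A S i * B S j = A S i * A S j := by rw [hij]; ring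
      exact (mul_left_cancel₀ hi this).symm
    by_cases h1 : ∃ S, A S ≠ 0 ∧ B S = 0
    · obtain ⟨S, hS1, hS2⟩ := h1
      apply hxz
      funext T
      have := hpar' S T
      rw [hS2] at this
      simp only [Pi.zero_apply, Int.cast_zero, zero_mul, Finset.sum_const_zero] at this
      have hS : (∑ i, (A S i : ℝ) * g i) ≠ 0 := hg.g1 (A S) (smA S) hS1
      have hT : (∑ i, (B T i : ℝ) * g i) = 0 := by
        rcases mul_eq_zero.mp this.symm with h | h
        · exact absurd h hS
        · exact h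
      have hBT := hzero_of' T hT
      refine (B4_iz_inj (z T) (x T) fun i => ?_).symm
      rw [← hB, hBT]; rfl
    by_cases h2 : ∃ S, B S ≠ 0 ∧ A S = 0
    · obtain ⟨S, hS1, hS2⟩ := h2
      apply hxy
      funext T
      have := hpar' S T
      rw [hS2] at this
      simp only [Pi.zero_apply, Int.cast_zero, zero_mul, Finset.sum_const_zero] at this
      have hS : (∑ i, (B S i : ℝ) * g i) ≠ 0 := hg.g1 (B S) (smB S) hS1
      have hT : (∑ i, (A T i : ℝ) * g i) = 0 := by
        rcases mul_eq_zero.mp this with h | h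
        · exact absurd h hS
        · exact h
      have hAT := hzero_of T hT
      refine (B4_iz_inj (y T) (x T) fun i => ?_).symm
      rw [← hA, hAT]; rfl
    · push Not at h1 h2
      apply hyz
      funext S
      refine B4_iz_inj (y S) (z S) fun i => ?_
      have hAB : A S = B S := by
        rcases tri S with h | h | h
        · by_contra hne
          have hB0 : B S ≠ 0 := fun hb => hne (by rw [h, hb])
          exact h2 S hB0 h
        · by_contra hne
          have hA0 : A S ≠ 0 := fun ha => hne (by rw [h, ha])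
          exact h1 S hA0 h
        · exact h
      have := congrFun hAB i
      rw [hA, hB] at this
      linarith

end Pool.Agent.UD
end
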