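import Pool.Agent.Lib.MP_05df08_co.BBase
import Pool.Agent.Lib.MP_05df08_co.Mg.G003

section

set_option autoImplicit false

namespace Pool.Agent.UD

variable {J Hc : Type*} [Fintype J] [DecidableEq J] [Fintype Hc] [DecidableEq Hc]

private theorem B5_iz01 (A : Finset Hc) (i : Hc) : iz A i = 0 ∨ iz A i = 1 := by
  unfold iz
  split_ifs
  · right; rfl
  · left; rfl

private theorem B5_psi {l : ℕ} (i i' : Hc) (x : Cfg J Hc l) :
    Psi i i' x = ∑ S : Vx J l, iz (x S) i * iz (x S) i' := by
  unfold Psi
  rw [Finset.card_filter]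
  push_cast
  refine Finset.sum_congr rfl fun S _ => ?_
  unfold iz
  by_cases h1 : i ∈ x S <;> by_cases h2 : i' ∈ x S <;> simp [h1, h2]

/-- Let `i` with `a i ≠ 0` and `i'` with `a i' = 0`, `b i' ≠ 0`. For `σ S = 1` the bit of `x S` at `i` is
`ε = (1 - a i)/2`, at `i'` it is `ε' = (1 - b i')/2`; for `σ S = -1` they are `1 - ε`, `1 - ε'`; `y S` has the
opposite bit at `i` and the same bit at `i'`; for `σ S = 0` nothing changes. So with
`n = #(σ = 1) = #(σ = -1)`: `Psi y - Psi x = n ((1-ε) ε' + ε (1-ε') - ε ε' - (1-ε)(1-ε')) = ± n`. -/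
theorem window_one {l : ℕ} (x y z : Cfg J Hc l) (σ : Vx J l → ℤ) (a b : Hc → ℤ)
    (ha : Sm a) (hb : Sm b) (hσ : ∀ S, σ S = -1 ∨ σ S = 0 ∨ σ S = 1)
    (hy : ∀ S i, iz (y S) i - iz (x S) i = σ S * a i)
    (hz : ∀ S i, iz (z S) i - iz (x S) i = σ S * b i)
    (h0 : ∑ S, σ S = 0) (i i' : Hc) (hi : a i ≠ 0) (hi' : a i' = 0) (hb' : b i' ≠ 0) :
    2 * |Psi i i' y - Psi i i' x| = ((Finset.univ.filter (fun S => σ S ≠ 0)).card : ℤ) := by
  have key : 2 * (Psi i i' y - Psi i i' x) = - (a i * b i') * ∑ S, σ S ^ 2 := by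
    have e1 : 2 * (Psi i i' y - Psi i i' x) =
        ∑ S : Vx J l, (a i * σ S - (a i * b i') * σ S ^ 2) := by
      rw [B5_psi, B5_psi, ← Finset.sum_sub_distrib, Finset.mul_sum]
      refine Finset.sum_congr rfl fun S _ => ?_
      have h1 := hy S i
      have h2 := hy S i'
      have h3 := hz S i'
      rw [hi', mul_zero] at h2
      have p1 := B5_iz01 (x S) i
      have p2 := B5_iz01 (x S) i'
      have p3 := B5_iz01 (z S) i'
      have h1' : iz (y S) i = iz (x S) i + σ S * a i := by linarith
      have h2' : iz (y S) i' = iz (x S) i' := by linarith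
      rw [h1', h2']
      have h4 : 2 * (σ S * iz (x S) i') = σ S - b i' * σ S ^ 2 := by
        rcases hσ S with s | s | s
        · rw [s] at h3 ⊢
          rcases hb i' with t | t | t
          · rw [t] at h3 ⊢
            rcases p2 with q | q <;> rcases p3 with q' | q' <;> rw [q, q'] at h3 <;> norm_num at h3
            rw [q]; norm_num
          · exact absurd t hb'
          · rw [t] at h3 ⊢
            rcases p2 with q | q <;> rcases p3 with q' | q' <;> rw [q, q'] at h3 <;> norm_num at h3
            rw [q]; norm_num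
        · rw [s]; ring
        · rw [s] at h3 ⊢
          rcases hb i' with t | t | t
          · rw [t] at h3 ⊢
            rcases p2 with q | q <;> rcases p3 with q' | q' <;> rw [q, q'] at h3 <;> norm_num at h3
            rw [q]; norm_num
          · exact absurd t hb'
          · rw [t] at h3 ⊢
            rcases p2 with q | q <;> rcases p3 with q' | q' <;> rw [q, q'] at h3 <;> norm_num at h3
            rw [q]; norm_num
      linear_combination (a i) * h4
    rw [e1, Finset.sum_sub_distrib, ← Finset.mul_sum, h0, ← Finset.mul_sum]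
    ring
  have hc : ((Finset.univ.filter (fun S => σ S ≠ 0)).card : ℤ) = ∑ S, σ S ^ 2 := by
    rw [Finset.card_filter]
    push_cast
    refine Finset.sum_congr rfl fun S _ => ?_
    rcases hσ S with s | s | s <;> rw [s] <;> norm_num
  have hnn : 0 ≤ ∑ S, σ S ^ 2 := Finset.sum_nonneg fun S _ => sq_nonneg _
  have habs : |2 * (Psi i i' y - Psi i i' x)| = ∑ S, σ S ^ 2 := by
    rw [key, abs_mul, abs_of_nonneg hnn]
    have : |-(a i * b i')| = 1 := by
      rcases ha i with s | s | s
      · rcases hb i' with t | t | t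
        · rw [s, t]; norm_num
        · exact absurd t hb'
        · rw [s, t]; norm_num
      · exact absurd s hi
      · rcases hb i' with t | t | t
        · rw [s, t]; norm_num
        · exact absurd t hb'
        · rw [s, t]; norm_num
    rw [this, one_mul]
  rw [hc, ← habs, abs_mul]
  norm_num

/-- If `a ∦ b` then there is a coordinate in `supp b \ supp a` or in `supp a \ supp b` (else the supports are
equal and `a = b` on it, since with `σ S ≠ 0` both are `1 - 2 bit` up to the sign `σ S`; there is such `S`);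
apply `window_one` to `(x, y, z)` or to `(x, z, y)`; `a ≠ 0` and `b ≠ 0`. -/
theorem window_diff {l : ℕ} (x y z : Cfg J Hc l) (σ : Vx J l → ℤ) (a b : Hc → ℤ)
    (ha : Sm a) (hb : Sm b) (hσ : ∀ S, σ S = -1 ∨ σ S = 0 ∨ σ S = 1) (hσ0 : ∃ S, σ S ≠ 0)
    (hab : ∃ i k, a i * b k ≠ a k * b i)
    (hy : ∀ S i, iz (y S) i - iz (x S) i = σ S * a i)
    (hz : ∀ S i, iz (z S) i - iz (x S) i = σ S * b i)
    (h0 : ∑ S, σ S = 0) :
    ∃ i i' : Hc,
      2 * |Psi i i' y - Psi i i' x| = ((Finset.univ.filter (fun S => σ S ≠ 0)).card : ℤ) ∨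
      2 * |Psi i i' z - Psi i i' x| = ((Finset.univ.filter (fun S => σ S ≠ 0)).card : ℤ) := by
  obtain ⟨S, hS⟩ := hσ0
  obtain ⟨i0, k0, hik⟩ := hab
  have hane : ∃ i, a i ≠ 0 := by
    by_contra hcon
    push Not at hcon
    exact hik (by rw [hcon i0, hcon k0]; ring)
  have hbne : ∃ i, b i ≠ 0 := by
    by_contra hcon
    push Not at hcon
    exact hik (by rw [hcon i0, hcon k0]; ring)
  by_cases h1 : ∃ j, a j = 0 ∧ b j ≠ 0
  · obtain ⟨j, hj1, hj2⟩ := h1
    obtain ⟨i, hi⟩ := hane
    exact ⟨i, j, Or.inl (window_one x y z σ a b ha hb hσ hy hz h0 i j hi hj1 hj2)⟩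
  by_cases h2 : ∃ j, b j = 0 ∧ a j ≠ 0
  · obtain ⟨j, hj1, hj2⟩ := h2
    obtain ⟨i, hi⟩ := hbne
    exact ⟨i, j, Or.inr (window_one x z y σ b a hb ha hσ hz hy h0 i j hi hj1 hj2)⟩
  exfalso
  push Not at h1 h2
  have heq : ∀ j, a j = b j := by
    intro j
    by_cases haj : a j = 0
    · rw [haj, h1 j haj]
    · have hbj : b j ≠ 0 := fun h => haj (h2 j h)
      have q1 := hy S j
      have q2 := hz S j
      have p1 := B5_iz01 (x S) j
      have p2 := B5_iz01 (y S) j
      have p3 := B5_iz01 (z S) j
      have n1 : σ S * a j ≠ 0 := mul_ne_zero hS haj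
      have n2 : σ S * b j ≠ 0 := mul_ne_zero hS hbj
      have : σ S * a j = σ S * b j := by
        rw [← q1] at n1 ⊢
        rw [← q2] at n2 ⊢
        rcases p1 with p1 | p1 <;> rcases p2 with p2 | p2 <;> rcases p3 with p3 | p3 <;>
          rw [p1, p2] at n1 <;> rw [p1, p3] at n2 <;> rw [p1, p2, p3] <;> simp_all
      exact mul_left_cancel₀ hS this
  exact hik (by rw [heq i0, heq k0]; ring)

end Pool.Agent.UD
end

section

set_option autoImplicit false

namespace Pool.Agent.UD

variable {J : Type*} [DecidableEq J]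

/-- MOMENT LEMMA. -/
theorem moment (G : Finset J) (k : ℕ) (f : Finset J → ℤ) (hf : ∃ S ∈ G.powerset, f S ≠ 0)
    (hm : ∀ A ⊆ G, A.card < k → ∑ S ∈ G.powerset.filter (fun S => A ⊆ S), f S = 0) :
    2 ^ k ≤ (G.powerset.filter (fun S => f S ≠ 0)).card := by
  induction G using Finset.induction_on generalizing k f with
  | empty =>
    obtain ⟨S, hS, hS0⟩ := hf
    rw [Finset.powerset_empty, Finset.mem_singleton] at hS
    subst hS
    rcases k with _ | k
    · rw [pow_zero, Nat.one_le_iff_ne_zero, Finset.card_ne_zero]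
      exact ⟨∅, Finset.mem_filter.2 ⟨by simp, hS0⟩⟩
    · exfalso
      apply hS0
      have h1 := hm ∅ (Finset.Subset.refl _) (by simp)
      simpa using h1
  | insert g G hg ih =>
    rcases k with _ | k
    · obtain ⟨S, hS, hS0⟩ := hf
      rw [pow_zero, Nat.one_le_iff_ne_zero, Finset.card_ne_zero]
      exact ⟨S, Finset.mem_filter.2 ⟨hS, hS0⟩⟩
    have hcard : ((insert g G).powerset.filter (fun S => f S ≠ 0)).card =
        (G.powerset.filter (fun S => f S ≠ 0)).card +
          (G.powerset.filter (fun S => f (insert g S) ≠ 0)).card := by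
      rw [Finset.card_filter, Finset.card_filter, Finset.card_filter,
        Finset.sum_powerset_insert hg]
    have hmom : ∀ A : Finset J, ∑ S ∈ (insert g G).powerset.filter (fun S => A ⊆ S), f S =
        (∑ S ∈ G.powerset.filter (fun S => A ⊆ S), f S) +
          ∑ S ∈ G.powerset.filter (fun S => A ⊆ insert g S), f (insert g S) := by
      intro A
      rw [Finset.sum_filter, Finset.sum_filter, Finset.sum_filter, Finset.sum_powerset_insert hg]
    rw [hcard]
    by_cases hcase : ∃ S ∈ G.powerset, f S + f (insert g S) ≠ 0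
    · have h1 := ih (k + 1) (fun S => f S + f (insert g S)) hcase (fun A hA hAc => by
        have h2 := hm A (hA.trans (Finset.subset_insert g G)) hAc
        rw [hmom] at h2
        rw [Finset.sum_add_distrib]
        have h3 : G.powerset.filter (fun S => A ⊆ insert g S) =
            G.powerset.filter (fun S => A ⊆ S) := by
          refine Finset.filter_congr fun S _ => ?_
          exact Finset.subset_insert_iff_of_notMem fun h => hg (hA h)
        rw [h3] at h2
        exact h2)
      refine h1.trans ((Finset.card_le_card ?_).trans (Finset.card_union_le _ _))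
      intro S hS
      rw [Finset.mem_filter] at hS
      rw [Finset.mem_union, Finset.mem_filter, Finset.mem_filter]
      by_cases h2 : f S = 0
      · exact Or.inr ⟨hS.1, fun h3 => hS.2 (by rw [h2, h3, add_zero])⟩
      · exact Or.inl ⟨hS.1, h2⟩
    · push Not at hcase
      have h1 : ∃ S ∈ G.powerset, f (insert g S) ≠ 0 := by
        obtain ⟨S, hS, hS0⟩ := hf
        rw [Finset.mem_powerset] at hS
        by_cases hgS : g ∈ S
        · refine ⟨S.erase g, ?_, ?_⟩
          · rw [Finset.mem_powerset]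
            exact Finset.subset_insert_iff.1 hS
          · rw [Finset.insert_erase hgS]
            exact hS0
        · have h2 : S ∈ G.powerset := by
            rw [Finset.mem_powerset]
            exact (Finset.subset_insert_iff_of_notMem hgS).1 hS
          refine ⟨S, h2, fun h3 => hS0 ?_⟩
          have h4 := hcase S h2
          rwa [h3, add_zero] at h4
      have h2 := ih k (fun S => f (insert g S)) h1 (fun A hA hAc => by
        have h3 := hm (insert g A) (Finset.insert_subset_insert g hA)
          (by rw [Finset.card_insert_of_notMem fun h => hg (hA h)]; omega)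
        rw [hmom] at h3
        have h4 : G.powerset.filter (fun S => insert g A ⊆ S) = ∅ := by
          refine Finset.filter_false_of_mem fun S hS h => hg ?_
          exact Finset.mem_powerset.1 hS (h (Finset.mem_insert_self g A))
        have h5 : G.powerset.filter (fun S => insert g A ⊆ insert g S) =
            G.powerset.filter (fun S => A ⊆ S) := by
          refine Finset.filter_congr fun S _ => ?_
          rw [Finset.insert_subset_iff]
          refine ⟨fun h => ?_, fun h => ⟨Finset.mem_insert_self g S,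
            h.trans (Finset.subset_insert g S)⟩⟩
          exact (Finset.subset_insert_iff_of_notMem fun h' => hg (hA h')).1 h.2
        rw [h4, h5, Finset.sum_empty, zero_add] at h3
        exact h3)
      have h3 : G.powerset.filter (fun S => f S ≠ 0) =
          G.powerset.filter (fun S => f (insert g S) ≠ 0) := by
        refine Finset.filter_congr fun S hS => ?_
        have h4 := hcase S hS
        constructor
        · intro h5 h6
          exact h5 (by rwa [h6, add_zero] at h4)
        · intro h5 h6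
          exact h5 (by rwa [h6, zero_add] at h4)
      rw [h3, pow_succ]
      omega

end Pool.Agent.UD
end

section

set_option autoImplicit false

namespace Pool.Agent.UD

variable {J : Type*} [Fintype J] [DecidableEq J]

/-- Sums over `Vx` as sums over all finsets (extension by zero). -/
theorem sum_ext {l : ℕ} (σ : Vx J l → ℤ) (A : Finset J) :
    (∑ S : Vx J l, if A ⊆ S.1 then σ S else 0) =
      ∑ S ∈ (Finset.univ : Finset J).powerset.filter (fun S => A ⊆ S), ext σ S := by
  rw [Finset.sum_filter, Finset.powerset_univ,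
    ← Finset.sum_subset (Finset.subset_univ
      (Finset.univ.filter fun S : Finset J => S.card = l ∨ S.card = l + 1)) (fun S _ hS => by
        rw [Finset.mem_filter, not_and] at hS
        have h1 := hS (Finset.mem_univ S)
        unfold ext
        rw [dif_neg h1, ite_self])]
  refine Finset.sum_bij (fun S _ => S.1) ?_ ?_ ?_ ?_
  · intro S _
    exact Finset.mem_filter.2 ⟨Finset.mem_univ _, S.2⟩
  · intro S _ T _ h
    exact Subtype.ext h
  · intro S hS
    exact ⟨⟨S, (Finset.mem_filter.1 hS).2⟩, Finset.mem_univ _, rfl⟩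
  · intro S _
    unfold ext
    rw [dif_pos S.2]

/-- the extension has the same support -/
private theorem B6a_supp {l : ℕ} (σ : Vx J l → ℤ) :
    ((Finset.univ : Finset (Finset J)).filter (fun S => ext σ S ≠ 0)).card =
      (Finset.univ.filter (fun S => σ S ≠ 0)).card := by
  symm
  refine Finset.card_bij (fun S _ => S.1) ?_ ?_ ?_
  · intro S hS
    refine Finset.mem_filter.2 ⟨Finset.mem_univ _, ?_⟩
    unfold ext
    rw [dif_pos S.2]
    exact (Finset.mem_filter.1 hS).2
  · intro S _ T _ h
    exact Subtype.ext h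
  · intro S hS
    have h1 := (Finset.mem_filter.1 hS).2
    by_cases h2 : S.card = l ∨ S.card = l + 1
    · refine ⟨⟨S, h2⟩, Finset.mem_filter.2 ⟨Finset.mem_univ _, ?_⟩, rfl⟩
      unfold ext at h1
      rwa [dif_pos h2] at h1
    · exfalso
      apply h1
      unfold ext
      rw [dif_neg h2]

/-- `moment` with `G = univ`, `k = t + 1`, `f = ext σ`. -/
theorem exists_moment {l : ℕ} (σ : Vx J l → ℤ) (t : ℕ) (h0 : ∃ S, σ S ≠ 0)
    (hs : (Finset.univ.filter (fun S => σ S ≠ 0)).card < 2 ^ (t + 1)) :
    ∃ A : Finset J, A.card ≤ t ∧ (∑ S : Vx J l, if A ⊆ S.1 then σ S else 0) ≠ 0 := by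
  by_contra hcon
  push Not at hcon
  have h1 := moment (Finset.univ : Finset J) (t + 1) (ext σ) (by
      obtain ⟨S, hS⟩ := h0
      refine ⟨S.1, Finset.mem_powerset.2 (Finset.subset_univ _), ?_⟩
      unfold ext
      rwa [dif_pos S.2]) (by
      intro A _ hA
      rw [← sum_ext]
      exact hcon A (by omega))
  rw [Finset.powerset_univ, B6a_supp] at h1
  omega

/-- `moment` with `G = univ.erase j`, `k = t + 1`, `f S = ext σ S + ext σ (insert j S)`: the support of `f` is at
most the support of `σ` (each `S` in `supp f` has `S` or `insert j S` in `supp (ext σ)`, injectively), and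
for `A ⊆ G` the `A`-moment of `f` is the `A`-moment of `σ`. So if `f ≠ 0` some moment of order `≤ t` is
nonzero. -/
theorem good_or_bad {l : ℕ} (σ : Vx J l → ℤ) (t : ℕ)
    (hs : (Finset.univ.filter (fun S => σ S ≠ 0)).card < 2 ^ (t + 1)) (j : J) :
    (∀ S : Finset J, j ∉ S → ext σ (insert j S) = - ext σ S) ∨
      ∃ A : Finset J, j ∉ A ∧ A.card ≤ t ∧ (∑ S : Vx J l, if A ⊆ S.1 then σ S else 0) ≠ 0 := by
  by_contra hcon
  push Not at hcon
  obtain ⟨⟨S0, hjS0, hS0⟩, hm⟩ := hcon
  have hju : j ∉ (Finset.univ : Finset J).erase j := Finset.notMem_erase j _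
  have huniv : (Finset.univ : Finset J) = insert j (Finset.univ.erase j) :=
    (Finset.insert_erase (Finset.mem_univ j)).symm
  have h1 := moment ((Finset.univ : Finset J).erase j) (t + 1)
    (fun S => ext σ S + ext σ (insert j S)) (by
      refine ⟨S0, ?_, ?_⟩
      · rw [Finset.mem_powerset]
        intro x hx
        exact Finset.mem_erase.2 ⟨fun h => hjS0 (h ▸ hx), Finset.mem_univ _⟩
      · intro h
        exact hS0 (by linarith)) (by
      intro A hA hAc
      have hjA : j ∉ A := fun h => hju (hA h)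
      have h2 := hm A hjA (by omega)
      rw [sum_ext, Finset.sum_filter, huniv, Finset.sum_powerset_insert hju,
        ← Finset.sum_add_distrib] at h2
      rw [Finset.sum_filter]
      refine Eq.trans (Finset.sum_congr rfl fun S _ => ?_) h2
      by_cases h3 : A ⊆ S
      · rw [if_pos h3, if_pos h3, if_pos (h3.trans (Finset.subset_insert j S))]
      · rw [if_neg h3, if_neg h3, if_neg, add_zero]
        intro h4
        exact h3 ((Finset.subset_insert_iff_of_notMem hjA).1 h4))
  have h2 : ((Finset.univ : Finset (Finset J)).filter (fun S => ext σ S ≠ 0)).card =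
      (((Finset.univ : Finset J).erase j).powerset.filter (fun S => ext σ S ≠ 0)).card +
        (((Finset.univ : Finset J).erase j).powerset.filter
          (fun S => ext σ (insert j S) ≠ 0)).card := by
    rw [Finset.card_filter, Finset.card_filter, Finset.card_filter, ← Finset.powerset_univ]
    conv_lhs => rw [huniv]
    rw [Finset.sum_powerset_insert hju]
  have h3 : (((Finset.univ : Finset J).erase j).powerset.filter
      (fun S => ext σ S + ext σ (insert j S) ≠ 0)).card ≤
      (((Finset.univ : Finset J).erase j).powerset.filter (fun S => ext σ S ≠ 0)).card +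
        (((Finset.univ : Finset J).erase j).powerset.filter
          (fun S => ext σ (insert j S) ≠ 0)).card := by
    refine (Finset.card_le_card ?_).trans (Finset.card_union_le _ _)
    intro S hS
    rw [Finset.mem_filter] at hS
    rw [Finset.mem_union, Finset.mem_filter, Finset.mem_filter]
    by_cases h4 : ext σ S = 0
    · exact Or.inr ⟨hS.1, fun h5 => hS.2 (by rw [h4, h5, add_zero])⟩
    · exact Or.inl ⟨hS.1, h4⟩
  rw [B6a_supp] at h2
  omega

/-- a nonzero value of the extension lives on one of the two levels -/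
private theorem B6a_level {l : ℕ} (σ : Vx J l → ℤ) (S : Finset J) (h : ext σ S ≠ 0) :
    S.card = l ∨ S.card = l + 1 := by
  by_contra h1
  apply h
  unfold ext
  rw [dif_neg h1]

/-- If `j ≠ k` are both good then from `S0` with `ext σ S0 ≠ 0` we get `ext σ ≠ 0` at `S0 Δ j`, `S0 Δ k`,
`S0 Δ j Δ k`; their cardinalities take three different values, but `ext σ` lives on two levels. -/
theorem two_good {l : ℕ} (σ : Vx J l → ℤ) (h0 : ∃ S, σ S ≠ 0) (j k : J) (hjk : j ≠ k)
    (hj : ∀ S : Finset J, j ∉ S → ext σ (insert j S) = - ext σ S)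
    (hk : ∀ S : Finset J, k ∉ S → ext σ (insert k S) = - ext σ S) : False := by
  obtain ⟨S1, hS1⟩ := h0
  -- move down to a set without `j` and `k`
  have h1 : ∃ S : Finset J, j ∉ S ∧ ext σ S ≠ 0 := by
    have h2 : ext σ S1.1 ≠ 0 := by
      unfold ext
      rwa [dif_pos S1.2]
    by_cases h3 : j ∈ S1.1
    · refine ⟨S1.1.erase j, Finset.notMem_erase _ _, fun h4 => h2 ?_⟩
      have h5 := hj (S1.1.erase j) (Finset.notMem_erase _ _)
      rw [Finset.insert_erase h3, h4, neg_zero] at h5
      exact h5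
    · exact ⟨S1.1, h3, h2⟩
  obtain ⟨S2, hjS2, hS2⟩ := h1
  have h1 : ∃ S : Finset J, j ∉ S ∧ k ∉ S ∧ ext σ S ≠ 0 := by
    by_cases h3 : k ∈ S2
    · refine ⟨S2.erase k, fun h => hjS2 (Finset.mem_of_mem_erase h), Finset.notMem_erase _ _,
        fun h4 => hS2 ?_⟩
      have h5 := hk (S2.erase k) (Finset.notMem_erase _ _)
      rw [Finset.insert_erase h3, h4, neg_zero] at h5
      exact h5
    · exact ⟨S2, hjS2, h3, hS2⟩
  obtain ⟨S, hjS, hkS, hS⟩ := h1
  have h2 : ext σ (insert k S) ≠ 0 := by
    rw [hk S hkS]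
    exact neg_ne_zero.2 hS
  have hj2 : j ∉ insert k S := by
    rw [Finset.mem_insert, not_or]
    exact ⟨hjk, hjS⟩
  have h3 : ext σ (insert j (insert k S)) ≠ 0 := by
    rw [hj _ hj2]
    exact neg_ne_zero.2 h2
  have c1 := B6a_level σ _ hS
  have c3 := B6a_level σ _ h3
  rw [Finset.card_insert_of_notMem hj2, Finset.card_insert_of_notMem hkS] at c3
  omega

end Pool.Agent.UD
end

section

set_option autoImplicit false

namespace Pool.Agent.UD

variable {J Hc : Type*} [DecidableEq J]

/-- If `a ∈ span (v '' A0)`, `a ∈ span (v '' A)`, `j ∉ A`, `v` independent on `A0 ∪ A`, then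
`a ∈ span (v '' (A0.erase j))`. -/
theorem span_erase (v : J → (Hc → ℚ)) (A0 A : Finset J)
    (hind : LinearIndepOn ℚ v ((A0 ∪ A : Finset J) : Set J)) (a : Hc → ℚ)
    (h0 : a ∈ Submodule.span ℚ (v '' (A0 : Set J))) (h1 : a ∈ Submodule.span ℚ (v '' (A : Set J)))
    (j : J) (hj : j ∉ A) : a ∈ Submodule.span ℚ (v '' ((A0.erase j : Finset J) : Set J)) := by
  by_cases hj0 : j ∈ A0
  · have e : v '' (A0 : Set J) = insert (v j) (v '' ((A0.erase j : Finset J) : Set J)) := by
      rw [← Set.image_insert_eq]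
      congr 1
      rw [← Finset.coe_insert, Finset.insert_erase hj0]
    rw [e, Submodule.mem_span_insert] at h0
    obtain ⟨c, z, hz, hc⟩ := h0
    by_cases hc0 : c = 0
    · rw [hc, hc0, zero_smul, zero_add]
      exact hz
    · exfalso
      have hmem : j ∈ ((A0 ∪ A : Finset J) : Set J) := by
        rw [Finset.mem_coe]
        exact Finset.mem_union_left _ hj0
      refine (linearIndepOn_iff_notMem_span.1 hind) j hmem ?_
      have h2 : v j = c⁻¹ • (a - z) := by
        rw [hc, add_sub_cancel_right, smul_smul, inv_mul_cancel₀ hc0, one_smul]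
      rw [h2]
      refine Submodule.smul_mem _ _ (Submodule.sub_mem _ ?_ ?_)
      · refine Submodule.span_mono (Set.image_mono ?_) h1
        intro i hi
        refine ⟨?_, ?_⟩
        · rw [Finset.mem_coe]
          exact Finset.mem_union_right _ hi
        · rw [Set.mem_singleton_iff]
          rintro rfl
          exact hj hi
      · refine Submodule.span_mono (Set.image_mono ?_) hz
        intro i hi
        rw [Finset.mem_coe, Finset.mem_erase] at hi
        refine ⟨?_, ?_⟩
        · rw [Finset.mem_coe]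
          exact Finset.mem_union_left _ hi.2
        · rw [Set.mem_singleton_iff]
          exact hi.1
  · rw [Finset.erase_eq_of_notMem hj0]
    exact h0

/-- Repeatedly erase from `A0` the elements `j` with `bad j` (`span_erase`; independence for at most `2t`
elements). If all elements of `A0` are bad, `a = b = 0`; otherwise there is `j0 ∈ A0` not bad, all
others are bad, and `a`, `b ∈ span {v j0}`. -/
theorem both_parallel (v : J → (Hc → ℚ)) (t : ℕ)
    (hind : ∀ B : Finset J, B.card ≤ 2 * t → LinearIndepOn ℚ v (B : Set J))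
    (A0 : Finset J) (hA0 : A0.card ≤ t) (a b : Hc → ℚ)
    (ha : a ∈ Submodule.span ℚ (v '' (A0 : Set J))) (hb : b ∈ Submodule.span ℚ (v '' (A0 : Set J)))
    (h : ∀ j ∈ A0, ∀ k ∈ A0, j ≠ k →
      (∃ A : Finset J, j ∉ A ∧ A.card ≤ t ∧ a ∈ Submodule.span ℚ (v '' (A : Set J)) ∧
        b ∈ Submodule.span ℚ (v '' (A : Set J))) ∨
      (∃ A : Finset J, k ∉ A ∧ A.card ≤ t ∧ a ∈ Submodule.span ℚ (v '' (A : Set J)) ∧
        b ∈ Submodule.span ℚ (v '' (A : Set J)))) :
    ∀ i k, a i * b k = a k * b i := by
  induction A0 using Finset.strongInduction with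
  | H A0 ih =>
    by_cases hbad : ∃ j ∈ A0, ∃ A : Finset J, j ∉ A ∧ A.card ≤ t ∧
        a ∈ Submodule.span ℚ (v '' (A : Set J)) ∧ b ∈ Submodule.span ℚ (v '' (A : Set J))
    · obtain ⟨j, hj, A, hjA, hA, h1, h2⟩ := hbad
      have hi : LinearIndepOn ℚ v ((A0 ∪ A : Finset J) : Set J) := by
        refine hind _ ((Finset.card_union_le _ _).trans ?_)
        omega
      exact ih (A0.erase j) (Finset.erase_ssubset hj)
        ((Finset.card_le_card (Finset.erase_subset _ _)).trans hA0)
        (span_erase v A0 A hi a ha h1 j hjA) (span_erase v A0 A hi b hb h2 j hjA)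
        (fun i hi' k hk hik => h i (Finset.mem_of_mem_erase hi') k (Finset.mem_of_mem_erase hk) hik)
    · have hone : ∀ j ∈ A0, ∀ k ∈ A0, j = k := by
        intro j hj k hk
        by_contra hne
        rcases h j hj k hk hne with h3 | h3
        · exact hbad ⟨j, hj, h3⟩
        · exact hbad ⟨k, hk, h3⟩
      rcases Finset.eq_empty_or_nonempty A0 with h4 | ⟨j0, hj0⟩
      · rw [h4, Finset.coe_empty, Set.image_empty, Submodule.span_empty, Submodule.mem_bot] at ha hb
        intro i k
        rw [ha, hb]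
        simp
      · have h5 : A0 = {j0} := by
          refine Finset.eq_singleton_iff_unique_mem.2 ⟨hj0, fun k hk => hone k hk j0 hj0⟩
        rw [h5, Finset.coe_singleton, Set.image_singleton, Submodule.mem_span_singleton] at ha hb
        obtain ⟨α, hα⟩ := ha
        obtain ⟨β, hβ⟩ := hb
        intro i k
        rw [← hα, ← hβ]
        simp only [Pi.smul_apply, smul_eq_mul]
        ring

end Pool.Agent.UD
end

section

set_option autoImplicit false

namespace Pool.Agent.UD

variable {J Hc : Type*} [Fintype J] [DecidableEq J] [Fintype Hc] [DecidableEq Hc]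

/-- PART B: no triple of `P` is real-parallel. By contradiction: `tensor_form`; `Inv` for `A = ∅` (span of the
empty set is 0) and `a ≠ 0` give `∑ σ = 0`; `window_diff` and `hwin` give `|supp σ| < 2 ω ≤ 2^(t+1)`;
for every `A` with `|A| ≤ t` and nonzero `A`-moment of `σ`: `a, b ∈ span` (as rational vectors; `Inv` for
`(x,y)` and `(x,z)`, divide by the moment); `exists_moment` gives `A0`; `good_or_bad`, `two_good` give the
hypothesis of `both_parallel`; contradiction to `a ∦ b`. -/
theorem no_triple {l : ℕ} (δ : J → Finset Hc) (t ω : ℕ) (hω : 2 * ω ≤ 2 ^ (t + 1))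
    (hind : ∀ B : Finset J, B.card ≤ 2 * t → LinearIndepOn ℚ (fun j => ivec (δ j)) (B : Set J))
    (g : Hc → ℝ) (hg : Gen g) (P : Finset (Cfg J Hc l))
    (hinv : ∀ x ∈ P, ∀ y ∈ P, Inv δ t x y)
    (hwin : ∀ x ∈ P, ∀ y ∈ P, ∀ i i', |Psi i i' x - Psi i i' y| < ω)
    (x y z : Cfg J Hc l) (hx : x ∈ P) (hy : y ∈ P) (hz : z ∈ P) (hxy : x ≠ y) (hyz : y ≠ z)
    (hxz : x ≠ z) :
    ∃ S T : Vx J l, (gs g (z S) - gs g (x S)) * (gs g (y T) - gs g (x T)) ≠
      (gs g (y S) - gs g (x S)) * (gs g (z T) - gs g (x T)) := by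
  by_contra hcon
  push Not at hcon
  obtain ⟨σ, a, b, ha, hb, hσ, hσ0, hab, hy', hz'⟩ := tensor_form g hg x y z hxy hyz hxz hcon
  have cast_mem : ∀ (y : Cfg J Hc l) (c : Hc → ℤ), Inv δ t x y →
      (∀ S i, iz (y S) i - iz (x S) i = σ S * c i) → ∀ A : Finset J, A.card ≤ t →
      (∑ S : Vx J l, if A ⊆ S.1 then σ S else 0) ≠ 0 →
      (fun i => (c i : ℚ)) ∈ Submodule.span ℚ ((fun j => ivec (δ j)) '' (A : Set J)) := by
    intro y c hinv hc A hA hm
    have h1 := hinv A hA
    have h2 : (∑ S : Vx J l, if A ⊆ S.1 then (ivec (y S) - ivec (x S)) else 0) =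
        ((∑ S : Vx J l, if A ⊆ S.1 then σ S else 0 : ℤ) : ℚ) • (fun i => (c i : ℚ)) := by
      rw [Int.cast_sum, Finset.sum_smul]
      refine Finset.sum_congr rfl fun S _ => ?_
      split_ifs with h
      · funext i
        have h3 := hc S i
        have h4 : ∀ B : Finset Hc, (iz B i : ℚ) = ivec B i := fun B => by
          unfold iz ivec
          split_ifs <;> simp
        have h5 : ((iz (y S) i - iz (x S) i : ℤ) : ℚ) = ((σ S * c i : ℤ) : ℚ) := by rw [h3]
        push_cast at h5
        rw [h4, h4] at h5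
        simpa using h5
      · simp
    rw [h2] at h1
    exact (Submodule.smul_mem_iff _ (by exact_mod_cast hm)).1 h1
  have h0 : ∑ S, σ S = 0 := by
    by_contra h0
    have h1 := cast_mem y a (hinv x hx y hy) hy' ∅ (by simp) (by simpa using h0)
    have h2 : (fun i => (a i : ℚ)) = 0 := by simpa using h1
    obtain ⟨i, k, hik⟩ := hab
    have h3 : ∀ i, a i = 0 := fun i => by simpa using congrFun h2 i
    exact hik (by rw [h3, h3]; simp)
  have hs : (Finset.univ.filter (fun S => σ S ≠ 0)).card < 2 ^ (t + 1) := by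
    obtain ⟨i, i', h | h⟩ := window_diff x y z σ a b ha hb hσ hσ0 hab hy' hz' h0
    · have h1 := hwin y hy x hx i i'
      have h2 : ((Finset.univ.filter (fun S => σ S ≠ 0)).card : ℤ) < 2 * ω := by rw [← h]; linarith
      have h3 : (Finset.univ.filter (fun S => σ S ≠ 0)).card < 2 * ω := by exact_mod_cast h2
      exact h3.trans_le hω
    · have h1 := hwin z hz x hx i i'
      have h2 : ((Finset.univ.filter (fun S => σ S ≠ 0)).card : ℤ) < 2 * ω := by rw [← h]; linarith
      have h3 : (Finset.univ.filter (fun S => σ S ≠ 0)).card < 2 * ω := by exact_mod_cast h2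
      exact h3.trans_le hω
  have hm : ∀ A : Finset J, A.card ≤ t → (∑ S : Vx J l, if A ⊆ S.1 then σ S else 0) ≠ 0 →
      (fun i => (a i : ℚ)) ∈ Submodule.span ℚ ((fun j => ivec (δ j)) '' (A : Set J)) ∧
      (fun i => (b i : ℚ)) ∈ Submodule.span ℚ ((fun j => ivec (δ j)) '' (A : Set J)) :=
    fun A hA hA' => ⟨cast_mem y a (hinv x hx y hy) hy' A hA hA',
      cast_mem z b (hinv x hx z hz) hz' A hA hA'⟩
  obtain ⟨A0, hA0, hA0'⟩ := exists_moment σ t hσ0 hs
  have hpar := both_parallel (fun j => ivec (δ j)) t hind A0 hA0 (fun i => (a i : ℚ))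
    (fun i => (b i : ℚ)) (hm A0 hA0 hA0').1 (hm A0 hA0 hA0').2 (fun j _ k _ hjk => by
      rcases good_or_bad σ t hs j with hj | ⟨A, h1, h2, h3⟩
      · rcases good_or_bad σ t hs k with hk | ⟨A, h1, h2, h3⟩
        · exact (two_good σ hσ0 j k hjk hj hk).elim
        · exact Or.inr ⟨A, h1, h2, (hm A h2 h3).1, (hm A h2 h3).2⟩
      · exact Or.inl ⟨A, h1, h2, (hm A h2 h3).1, (hm A h2 h3).2⟩)
  obtain ⟨i, k, hik⟩ := hab
  exact hik (by exact_mod_cast hpar i k)

end Pool.Agent.UD
end

section

set_option autoImplicit false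

namespace Pool.Agent.UD

variable {J Hc : Type*} [Fintype J] [DecidableEq J] [Fintype Hc] [DecidableEq Hc]

private theorem sum_two'' {l : ℕ} {M : Type*} [AddCommGroup M] {S T : Vx J l} (hST : S ≠ T)
    (f : Vx J l → M) (hf : ∀ R, R ≠ S → R ≠ T → f R = 0) : ∑ R, f R = f S + f T := by
  rw [← Finset.sum_pair hST]
  symm
  apply Finset.sum_subset (Finset.subset_univ _)
  intro R _ hR
  simp only [Finset.mem_insert, Finset.mem_singleton, not_or] at hR
  exact hf R hR.1 hR.2

private theorem gs_sdiff' (g : Hc → ℝ) {A B : Finset Hc} (h : B ⊆ A) :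
    gs g (A \ B) = gs g A - gs g B := by
  have := Finset.sum_sdiff (f := g) h
  unfold gs
  linarith

private theorem gs_union' (g : Hc → ℝ) {A B : Finset Hc} (h : Disjoint B A) :
    gs g (A ∪ B) = gs g A + gs g B := by
  unfold gs
  exact Finset.sum_union h.symm

/-- effect of a move on the point -/
theorem Move.sum {l : ℕ} {δ : J → Finset Hc} {x x' : Cfg J Hc l} (h : Move δ x x')
    (g : Hc → ℝ) (X : Finset J → ℂ) :
    ∃ (S : Finset J) (j : J), j ∉ S ∧
      (∑ S : Vx J l, (gs g (x' S) : ℂ) * X S.1) - (∑ S : Vx J l, (gs g (x S) : ℂ) * X S.1) =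
        (gs g (δ j) : ℂ) * (X (insert j S) - X S) := by
  obtain ⟨S, T, j, hj, hT, h1, h2, rfl⟩ := h
  have hST : S ≠ T := by
    intro h
    apply hj
    rw [h, hT]
    exact Finset.mem_insert_self _ _
  refine ⟨S.1, j, hj, ?_⟩
  rw [← Finset.sum_sub_distrib, sum_two'' hST]
  · rw [Function.update_self, Function.update_of_ne hST, Function.update_self,
      gs_sdiff' g h1, gs_union' g h2, hT]
    push_cast
    ring
  · intro R hRS hRT
    rw [Function.update_of_ne hRT, Function.update_of_ne hRS, sub_self]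

/-- `gs` as a linear function of the integer indicator -/
theorem gs_eq (g : Hc → ℝ) (A : Finset Hc) : gs g A = ∑ i, (iz A i : ℝ) * g i := by
  unfold gs iz
  simp [Finset.sum_ite_mem]

private theorem gs_ivec (g : Hc → ℝ) (A : Finset Hc) : gs g A = ∑ i, ((ivec A i : ℚ) : ℝ) * g i := by
  unfold gs
  have : ∀ i, ((ivec A i : ℚ) : ℝ) * g i = if i ∈ A then g i else 0 := by
    intro i
    unfold ivec
    split_ifs <;> simp
  simp only [this]
  rw [Finset.sum_ite_mem, Finset.univ_inter]

/-- The invariant for `A = ∅` (span of the empty set is 0). -/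
theorem Inv.sum_gs {l : ℕ} {δ : J → Finset Hc} {t : ℕ} {x y : Cfg J Hc l} (h : Inv δ t x y)
    (g : Hc → ℝ) : ∑ S, (gs g (y S) - gs g (x S)) = 0 := by
  have h0 := h ∅ (by simp)
  rw [Finset.coe_empty, Set.image_empty, Submodule.span_empty, Submodule.mem_bot] at h0
  have h0' : (∑ S : Vx J l, (ivec (y S) - ivec (x S))) = 0 := by
    rw [← h0]
    apply Finset.sum_congr rfl
    intro S _
    rw [if_pos (Finset.empty_subset _)]
  have h1 : ∀ i : Hc, ∑ S : Vx J l, (ivec (y S) i - ivec (x S) i) = 0 := by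
    intro i
    have := congrFun h0' i
    rw [Finset.sum_apply] at this
    simpa using this
  calc ∑ S, (gs g (y S) - gs g (x S))
      = ∑ S : Vx J l, ∑ i, (((ivec (y S) i - ivec (x S) i : ℚ)) : ℝ) * g i := by
        apply Finset.sum_congr rfl
        intro S _
        rw [gs_ivec, gs_ivec, ← Finset.sum_sub_distrib]
        apply Finset.sum_congr rfl
        intro i _
        push_cast
        ring
    _ = ∑ i, ∑ S : Vx J l, (((ivec (y S) i - ivec (x S) i : ℚ)) : ℝ) * g i := Finset.sum_comm
    _ = ∑ i, (0 : ℝ) := by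
        apply Finset.sum_congr rfl
        intro i _
        rw [← Finset.sum_mul]
        have := congrArg (fun q : ℚ => (q : ℝ)) (h1 i)
        simp only [Rat.cast_sum, Rat.cast_zero] at this
        rw [this, zero_mul]
    _ = 0 := by simp

/-- `δ` is injective if any two vectors are independent -/
theorem gs_delta_inj (δ : J → Finset Hc) (g : Hc → ℝ) (hg : Gen g)
    (hind : ∀ B : Finset J, B.card ≤ 2 → LinearIndepOn ℚ (fun j => ivec (δ j)) (B : Set J)) :
    Function.Injective (fun j => gs g (δ j)) := by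
  intro j j' hjj
  by_contra hne
  have h1 : gs g (δ j) = gs g (δ j') := hjj
  rw [gs_eq, gs_eq] at h1
  have h2 : ∑ i, (((iz (δ j) i - iz (δ j') i : ℤ)) : ℝ) * g i = 0 := by
    have : ∑ i, (((iz (δ j) i - iz (δ j') i : ℤ)) : ℝ) * g i =
        ∑ i, (iz (δ j) i : ℝ) * g i - ∑ i, (iz (δ j') i : ℝ) * g i := by
      rw [← Finset.sum_sub_distrib]
      apply Finset.sum_congr rfl
      intro i _
      push_cast
      ring
    rw [this, h1, sub_self]
  have hz : (fun i => iz (δ j) i - iz (δ j') i) = 0 := by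
    by_contra hc
    refine hg.g1 (fun i => iz (δ j) i - iz (δ j') i) ?_ hc h2
    intro i
    simp only [iz]
    split_ifs <;> simp
  have hδ : δ j = δ j' := by
    ext i
    have := congrFun hz i
    simp only [iz, Pi.zero_apply] at this
    by_cases a : i ∈ δ j <;> by_cases b : i ∈ δ j' <;> simp [a, b] at this ⊢
  have hcard : ({j, j'} : Finset J).card ≤ 2 := Finset.card_le_two
  have hI := (hind {j, j'} hcard).injOn
  exact hne (hI (by simp) (by simp) (by simp [hδ]))

end Pool.Agent.UD
end

section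

set_option autoImplicit false

namespace Pool.Agent.UD

variable {J Hc : Type*} [Fintype J] [DecidableEq J] [Fintype Hc] [DecidableEq Hc]

theorem Inv.refl {l : ℕ} (δ : J → Finset Hc) (t : ℕ) (x : Cfg J Hc l) : Inv δ t x x := by
  intro A _
  have : (∑ S : Vx J l, if A ⊆ S.1 then (ivec (x S) - ivec (x S)) else 0) = 0 := by
    apply Finset.sum_eq_zero
    intro S _
    split_ifs <;> simp
  rw [this]
  exact Submodule.zero_mem _

theorem Inv.symm {l : ℕ} {δ : J → Finset Hc} {t : ℕ} {x y : Cfg J Hc l} (h : Inv δ t x y) :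
    Inv δ t y x := by
  intro A hA
  have h1 := Submodule.neg_mem _ (h A hA)
  rw [← Finset.sum_neg_distrib] at h1
  have : (∑ S : Vx J l, if A ⊆ S.1 then (ivec (x S) - ivec (y S)) else 0) =
      ∑ S : Vx J l, -(if A ⊆ S.1 then (ivec (y S) - ivec (x S)) else 0) := by
    apply Finset.sum_congr rfl
    intro S _
    split_ifs <;> simp
  rw [this]
  exact h1

theorem Inv.trans {l : ℕ} {δ : J → Finset Hc} {t : ℕ} {x y z : Cfg J Hc l} (h : Inv δ t x y)
    (h' : Inv δ t y z) : Inv δ t x z := by
  intro A hA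
  have h1 := Submodule.add_mem _ (h A hA) (h' A hA)
  rw [← Finset.sum_add_distrib] at h1
  have : (∑ S : Vx J l, if A ⊆ S.1 then (ivec (z S) - ivec (x S)) else 0) =
      ∑ S : Vx J l, ((if A ⊆ S.1 then (ivec (y S) - ivec (x S)) else 0) +
        (if A ⊆ S.1 then (ivec (z S) - ivec (y S)) else 0)) := by
    apply Finset.sum_congr rfl
    intro S _
    split_ifs <;> simp
  rw [this]
  exact h1

private theorem ivec_sdiff' {A B : Finset Hc} (h : B ⊆ A) :
    ivec (A \ B) = ivec A - ivec B := by
  funext i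
  simp only [ivec, Pi.sub_apply, Finset.mem_sdiff]
  by_cases h1 : i ∈ B
  · have := h h1
    simp [h1, this]
  · by_cases h2 : i ∈ A <;> simp [h1, h2]

private theorem ivec_union' {A B : Finset Hc} (h : Disjoint B A) :
    ivec (A ∪ B) = ivec A + ivec B := by
  funext i
  simp only [ivec, Pi.add_apply, Finset.mem_union]
  by_cases h1 : i ∈ B
  · have := Finset.disjoint_left.mp h h1
    simp [h1, this]
  · by_cases h2 : i ∈ A <;> simp [h1, h2]

private theorem sum_two' {l : ℕ} {M : Type*} [AddCommGroup M] {S T : Vx J l} (hST : S ≠ T)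
    (f : Vx J l → M) (hf : ∀ R, R ≠ S → R ≠ T → f R = 0) : ∑ R, f R = f S + f T := by
  rw [← Finset.sum_pair hST]
  symm
  apply Finset.sum_subset (Finset.subset_univ _)
  intro R _ hR
  simp only [Finset.mem_insert, Finset.mem_singleton, not_or] at hR
  exact hf R hR.1 hR.2

/-- Only `S` and `T = insert j S` change: `ivec (x' S) - ivec (x S) = - ivec (δ j)`, at `T` it is `+ ivec (δ j)`.
If `A ⊆ S` the sum is 0; if `A ⊆ T`, `A ⊄ S` then `j ∈ A` and the sum is `ivec (δ j)`; else it is 0. -/
theorem Move.inv {l : ℕ} {δ : J → Finset Hc} (t : ℕ) {x x' : Cfg J Hc l} (h : Move δ x x') :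
    Inv δ t x x' := by
  obtain ⟨S, T, j, hj, hT, h1, h2, rfl⟩ := h
  have hST : S ≠ T := by
    intro h
    apply hj
    rw [h, hT]
    exact Finset.mem_insert_self _ _
  intro A _
  rw [sum_two' hST]
  · rw [Function.update_self, Function.update_of_ne hST, Function.update_self,
      ivec_sdiff' h1, ivec_union' h2]
    have e1 : ivec (x S) - ivec (δ j) - ivec (x S) = -ivec (δ j) := by abel
    have e2 : ivec (x T) + ivec (δ j) - ivec (x T) = ivec (δ j) := by abel
    rw [e1, e2]
    by_cases hAS : A ⊆ S.1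
    · have hAT : A ⊆ T.1 := by
        rw [hT]
        exact hAS.trans (Finset.subset_insert _ _)
      rw [if_pos hAS, if_pos hAT, neg_add_cancel]
      exact Submodule.zero_mem _
    · rw [if_neg hAS, zero_add]
      by_cases hAT : A ⊆ T.1
      · rw [if_pos hAT]
        have hjA : j ∈ A := by
          by_contra hc
          apply hAS
          intro k hk
          have := hAT hk
          rw [hT, Finset.mem_insert] at this
          rcases this with rfl | h3
          · exact absurd hk hc
          · exact h3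
        exact Submodule.subset_span ⟨j, hjA, rfl⟩
      · rw [if_neg hAT]
        exact Submodule.zero_mem _
  · intro R hRS hRT
    rw [Function.update_of_ne hRT, Function.update_of_ne hRS, sub_self, ite_self]

private theorem psi_sum' {l : ℕ} (i i' : Hc) (x : Cfg J Hc l) :
    Psi i i' x = ∑ R : Vx J l, if (i ∈ x R ∧ i' ∈ x R) then (1 : ℤ) else 0 := by
  unfold Psi
  rw [Finset.card_filter]
  push_cast
  rfl

private theorem psi_diff' {l : ℕ} {δ : J → Finset Hc} {x x' : Cfg J Hc l} (h : Move δ x x') :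
    ∃ (j : J) (S T : Vx J l), δ j ⊆ x S ∧ Disjoint (δ j) (x T) ∧
      ∀ i i' : Hc, Psi i i' x' - Psi i i' x =
        ((if (i ∈ x S \ δ j ∧ i' ∈ x S \ δ j) then (1 : ℤ) else 0) -
          (if (i ∈ x S ∧ i' ∈ x S) then (1 : ℤ) else 0)) +
        ((if (i ∈ x T ∪ δ j ∧ i' ∈ x T ∪ δ j) then (1 : ℤ) else 0) -
          (if (i ∈ x T ∧ i' ∈ x T) then (1 : ℤ) else 0)) := by
  obtain ⟨S, T, j, hj, hT, h1, h2, rfl⟩ := h
  have hST : S ≠ T := by
    intro h
    apply hj
    rw [h, hT]
    exact Finset.mem_insert_self _ _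
  refine ⟨j, S, T, h1, h2, ?_⟩
  intro i i'
  rw [psi_sum', psi_sum', ← Finset.sum_sub_distrib, sum_two' hST]
  · rw [Function.update_self, Function.update_of_ne hST, Function.update_self]
  · intro R hRS hRT
    rw [Function.update_of_ne hRT, Function.update_of_ne hRS, sub_self]

private theorem psi_eq' {l : ℕ} {δ : J → Finset Hc} {x x' : Cfg J Hc l} (h : Move δ x x') :
    ∃ j : J, (∀ i i' : Hc, (i ∈ δ j ↔ i' ∈ δ j) → Psi i i' x = Psi i i' x') ∧
      (∀ i i' : Hc, |Psi i i' x' - Psi i i' x| ≤ 1) := by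
  obtain ⟨j, S, T, h1, h2, h3⟩ := psi_diff' h
  refine ⟨j, ?_, ?_⟩
  · intro i i' hii
    have h4 := h3 i i'
    have h5 : Psi i i' x' - Psi i i' x = 0 := by
      rw [h4]
      by_cases hi : i ∈ δ j
      · have hi' : i' ∈ δ j := hii.mp hi
        have a1 := h1 hi
        have a2 := h1 hi'
        have b1 := Finset.disjoint_left.mp h2 hi
        have b2 := Finset.disjoint_left.mp h2 hi'
        simp [hi, hi', a1, a2, b1, b2]
      · have hi' : i' ∉ δ j := fun h => hi (hii.mpr h)
        simp [hi, hi']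
    omega
  · intro i i'
    rw [h3 i i']
    have a1 : i ∈ δ j → i ∈ x S := fun h => h1 h
    have a2 : i' ∈ δ j → i' ∈ x S := fun h => h1 h
    have b1 : i ∈ δ j → i ∉ x T := fun h => Finset.disjoint_left.mp h2 h
    have b2 : i' ∈ δ j → i' ∉ x T := fun h => Finset.disjoint_left.mp h2 h
    simp only [Finset.mem_sdiff, Finset.mem_union]
    by_cases p1 : i ∈ δ j <;> by_cases p2 : i' ∈ δ j <;> by_cases p3 : i ∈ x S <;>
      by_cases p4 : i' ∈ x S <;> by_cases p5 : i ∈ x T <;> by_cases p6 : i' ∈ x T <;>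
      simp_all

/-- If both or none of `i, i'` are in `δ j` nothing changes in total; if exactly `i ∈ δ j` the change is
`[i' ∈ x T] - [i' ∈ x S]`. -/
theorem Move.psi_eq {l : ℕ} {δ : J → Finset Hc} {x x' : Cfg J Hc l} (h : Move δ x x') :
    ∃ j : J, ∀ i i' : Hc, (i ∈ δ j ↔ i' ∈ δ j) → Psi i i' x = Psi i i' x' := by
  obtain ⟨j, h1, _⟩ := psi_eq' h
  exact ⟨j, h1⟩

theorem Move.psi_le {l : ℕ} {δ : J → Finset Hc} {x x' : Cfg J Hc l} (h : Move δ x x')
    (i i' : Hc) : |Psi i i' x - Psi i i' x'| ≤ 1 := by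
  obtain ⟨_, _, h2⟩ := psi_eq' h
  rw [abs_sub_comm]
  exact h2 i i'

/-- `Move.psi_eq`; the pairs with exactly one index in `δ j` are in `δ j ×ˢ univ ∪ univ ×ˢ δ j`. -/
theorem Move.psi_card {l : ℕ} {δ : J → Finset Hc} {x x' : Cfg J Hc l} (h : Move δ x x')
    (w : ℕ) (hw : ∀ j, (δ j).card = w) :
    (Finset.univ.filter (fun q : Hc × Hc => Psi q.1 q.2 x ≠ Psi q.1 q.2 x')).card ≤
      2 * w * Fintype.card Hc := by
  obtain ⟨j, hj⟩ := Move.psi_eq h
  have hsub : Finset.univ.filter (fun q : Hc × Hc => Psi q.1 q.2 x ≠ Psi q.1 q.2 x') ⊆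
      (δ j ×ˢ Finset.univ) ∪ (Finset.univ ×ˢ δ j) := by
    intro q hq
    rw [Finset.mem_filter] at hq
    rw [Finset.mem_union, Finset.mem_product, Finset.mem_product]
    by_cases h1 : q.1 ∈ δ j
    · exact Or.inl ⟨h1, Finset.mem_univ _⟩
    · by_cases h2 : q.2 ∈ δ j
      · exact Or.inr ⟨Finset.mem_univ _, h2⟩
      · exact absurd (hj q.1 q.2 (by simp [h1, h2])) hq.2
  refine (Finset.card_le_card hsub).trans ((Finset.card_union_le _ _).trans ?_)
  rw [Finset.card_product, Finset.card_product, hw j, Finset.card_univ]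
  apply le_of_eq
  ring

end Pool.Agent.UD
end
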