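import Pool.Agent.Lib.MP_05df08_co.BBase
import Pool.Agent.Lib.MP_05df08_co.Mg.G004

section

set_option autoImplicit false

namespace Pool.Agent.UD

variable {J Hc : Type*} [Fintype J] [DecidableEq J] [Fintype Hc] [DecidableEq Hc]

/-- For `S ≠ T`: the map `x ↦ (x with S replaced by x S ∪ D and T by x T \ D, x S ∩ D, x T ∩ D)` is
injective from all configurations to (good configurations) × (subsets of D)^2. -/
theorem count_good {l : ℕ} (D : Finset Hc) (S T : Vx J l) (hST : S ≠ T) :
    Fintype.card (Cfg J Hc l) ≤ 2 ^ (2 * D.card) *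
      (Finset.univ.filter (fun x : Cfg J Hc l => D ⊆ x S ∧ Disjoint D (x T))).card := by
  classical
  set f : Cfg J Hc l → Cfg J Hc l × (Finset Hc × Finset Hc) := fun x =>
    (Function.update (Function.update x S (x S ∪ D)) T (x T \ D), (x S ∩ D, x T ∩ D)) with hf
  have hcard : ((Finset.univ.filter (fun x : Cfg J Hc l => D ⊆ x S ∧ Disjoint D (x T))) ×ˢ
      (D.powerset ×ˢ D.powerset)).card = 2 ^ (2 * D.card) *
      (Finset.univ.filter (fun x : Cfg J Hc l => D ⊆ x S ∧ Disjoint D (x T))).card := by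
    rw [Finset.card_product, Finset.card_product, Finset.card_powerset, ← pow_add, mul_comm,
      two_mul]
  rw [← hcard, ← Finset.card_univ]
  refine Finset.card_le_card_of_injOn f (fun x _ => ?_) ?_
  · rw [Finset.mem_coe, Finset.mem_product, Finset.mem_product, Finset.mem_powerset,
      Finset.mem_powerset]
    refine ⟨?_, Finset.inter_subset_right, Finset.inter_subset_right⟩
    rw [Finset.mem_filter]
    refine ⟨Finset.mem_univ _, ?_, ?_⟩
    · simp only [hf]
      rw [Function.update_of_ne hST, Function.update_self]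
      exact Finset.subset_union_right
    · simp only [hf]
      rw [Function.update_self]
      exact Finset.disjoint_sdiff
  · intro x _ y _ hxy
    simp only [hf, Prod.mk.injEq] at hxy
    obtain ⟨h1, h2, h3⟩ := hxy
    funext V
    have hV := congrFun h1 V
    by_cases hT : V = T
    · subst hT
      rw [Function.update_self, Function.update_self] at hV
      have e1 : x V = (x V \ D) ∪ (x V ∩ D) := (Finset.sdiff_union_inter _ _).symm
      have e2 : y V = (y V \ D) ∪ (y V ∩ D) := (Finset.sdiff_union_inter _ _).symm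
      rw [e1, e2, hV, h3]
    · rw [Function.update_of_ne hT, Function.update_of_ne hT] at hV
      by_cases hS : V = S
      · subst hS
        rw [Function.update_self, Function.update_self] at hV
        ext i
        by_cases hi : i ∈ D
        · have e1 := Finset.ext_iff.1 h2 i
          simp only [Finset.mem_inter, hi, and_true] at e1
          exact e1
        · have e1 := Finset.ext_iff.1 hV i
          simp only [Finset.mem_union, hi, or_false] at e1
          exact e1
      · rw [Function.update_of_ne hS, Function.update_of_ne hS] at hV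
        exact hV

/-- Total number of moves. The triples `(T, j, x)` with `|T| = l + 1`, `j ∈ T`, `S = T.erase j`, `x` good for
`(δ j, S, T)` inject into `mv δ univ` by `(x, x')` (from `x' - x` one recovers `T`, `S`, `j`, as `δ j ≠ ∅`:
`T` is the place where `x'` is larger, `S` the place where it is smaller). Their number is at least
`∑_T ∑_{j ∈ T} card / 2^(2w)`, and there are `(l+1) choose(card J, l+1)` pairs `(T, j)`. -/
theorem count_moves {l : ℕ} (δ : J → Finset Hc) (w : ℕ) (hw : ∀ j, (δ j).card = w) (hw0 : 0 < w) :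
    (l + 1) * (Fintype.card J).choose (l + 1) * Fintype.card (Cfg J Hc l) ≤
      2 ^ (2 * w) * (mv δ (Finset.univ : Finset (Cfg J Hc l))).card := by
  classical
  set I : Finset (Σ _ : Finset J, J) :=
    (Finset.powersetCard (l + 1) (Finset.univ : Finset J)).sigma (fun T => T) with hI
  have hIc : I.card = (l + 1) * (Fintype.card J).choose (l + 1) := by
    rw [hI, Finset.card_sigma, Finset.sum_congr rfl (fun T hT => (Finset.mem_powersetCard.1 hT).2),
      Finset.sum_const, Finset.card_powersetCard, Finset.card_univ, smul_eq_mul, mul_comm]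
  have hTc : ∀ p : {p // p ∈ I}, p.1.1.card = l + 1 := fun p =>
    (Finset.mem_powersetCard.1 (Finset.mem_sigma.1 p.2).1).2
  have hjT : ∀ p : {p // p ∈ I}, p.1.2 ∈ p.1.1 := fun p => (Finset.mem_sigma.1 p.2).2
  set vT : {p // p ∈ I} → Vx J l := fun p => ⟨p.1.1, Or.inr (hTc p)⟩ with hvT
  set vS : {p // p ∈ I} → Vx J l := fun p => ⟨p.1.1.erase p.1.2, Or.inl (by
    rw [Finset.card_erase_of_mem (hjT p), hTc p]
    rfl)⟩ with hvS
  have hne : ∀ p, vS p ≠ vT p := by
    intro p h
    have h1 : p.1.1.erase p.1.2 = p.1.1 := congrArg Subtype.val h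
    have h2 := Finset.notMem_erase p.1.2 p.1.1
    rw [h1] at h2
    exact h2 (hjT p)
  set Gd : {p // p ∈ I} → Finset (Cfg J Hc l) := fun p =>
    Finset.univ.filter (fun x : Cfg J Hc l => δ p.1.2 ⊆ x (vS p) ∧ Disjoint (δ p.1.2) (x (vT p)))
    with hGd
  set up : {p // p ∈ I} → Cfg J Hc l → Cfg J Hc l := fun p x =>
    Function.update (Function.update x (vS p) (x (vS p) \ δ p.1.2)) (vT p) (x (vT p) ∪ δ p.1.2)
    with hup
  have hδne : ∀ j, (δ j).Nonempty := fun j => Finset.card_pos.1 (by rw [hw]; exact hw0)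
  -- the place where `x'` is larger
  have hlarge : ∀ p x V, x ∈ Gd p → (¬ up p x V ⊆ x V ↔ V = vT p) := by
    intro p x V hx
    rw [hGd, Finset.mem_filter] at hx
    constructor
    · intro h
      by_contra hV
      apply h
      simp only [hup]
      rw [Function.update_of_ne hV]
      by_cases hS : V = vS p
      · subst hS
        rw [Function.update_self]
        exact Finset.sdiff_subset
      · rw [Function.update_of_ne hS]
    · rintro rfl h
      simp only [hup] at h
      rw [Function.update_self] at h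
      obtain ⟨i, hi⟩ := hδne p.1.2
      exact Finset.disjoint_left.1 hx.2.2 hi (h (Finset.mem_union_right _ hi))
  have hsmall : ∀ p x V, x ∈ Gd p → (¬ x V ⊆ up p x V ↔ V = vS p) := by
    intro p x V hx
    rw [hGd, Finset.mem_filter] at hx
    constructor
    · intro h
      by_contra hV
      apply h
      simp only [hup]
      by_cases hT : V = vT p
      · subst hT
        rw [Function.update_self]
        exact Finset.subset_union_left
      · rw [Function.update_of_ne hT, Function.update_of_ne hV]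
    · rintro rfl h
      simp only [hup] at h
      rw [Function.update_of_ne (hne p), Function.update_self] at h
      obtain ⟨i, hi⟩ := hδne p.1.2
      have := h (hx.2.1 hi)
      rw [Finset.mem_sdiff] at this
      exact this.2 hi
  have hinj : (I.attach.sigma Gd).card ≤ (mv δ (Finset.univ : Finset (Cfg J Hc l))).card := by
    refine Finset.card_le_card_of_injOn (fun q => (q.2, up q.1 q.2)) ?_ ?_
    · rintro ⟨p, x⟩ hq
      have hx : x ∈ Gd p := (Finset.mem_sigma.1 hq).2
      have hx' := hx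
      rw [hGd, Finset.mem_filter] at hx'
      refine Finset.mem_coe.2 ((mem_mv δ _ _).2
        ⟨Finset.mem_univ _, Finset.mem_univ _, vS p, vT p, p.1.2, ?_, ?_, hx'.2.1, hx'.2.2, rfl⟩)
      · exact Finset.notMem_erase _ _
      · exact (Finset.insert_erase (hjT p)).symm
    · rintro ⟨p, x⟩ hq ⟨p', y⟩ hq' h
      have hx : x ∈ Gd p := (Finset.mem_sigma.1 hq).2
      have hy : y ∈ Gd p' := (Finset.mem_sigma.1 hq').2
      obtain ⟨h1, h2⟩ : x = y ∧ up p x = up p' y := by
        simpa [Prod.ext_iff] using h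
      subst h1
      have hT : vT p = vT p' := by
        rw [← hlarge p' x _ hy, ← h2, hlarge p x _ hx]
      have hS : vS p = vS p' := by
        rw [← hsmall p' x _ hy, ← h2, hsmall p x _ hx]
      have hpp : p = p' := by
        obtain ⟨⟨T, j⟩, hp⟩ := p
        obtain ⟨⟨T', j'⟩, hp'⟩ := p'
        have e1 : T = T' := congrArg Subtype.val hT
        subst e1
        have e2 : T.erase j = T.erase j' := congrArg Subtype.val hS
        have e3 : j = j' := by
          by_contra hjj
          have hj' : j ∈ T := (Finset.mem_sigma.1 hp).2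
          have h3 : j ∈ T.erase j' := Finset.mem_erase.2 ⟨hjj, hj'⟩
          rw [← e2] at h3
          exact Finset.notMem_erase _ _ h3
        subst e3
        rfl
      subst hpp
      rfl
  have hsum : I.card * Fintype.card (Cfg J Hc l) ≤ 2 ^ (2 * w) * (I.attach.sigma Gd).card := by
    have hsig : (I.attach.sigma Gd).card = ∑ p ∈ I.attach, (Gd p).card := Finset.card_sigma _ _
    have hIa : I.card = I.attach.card := Finset.card_attach.symm
    rw [hsig, Finset.mul_sum, hIa, ← smul_eq_mul, ← Finset.sum_const]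
    refine Finset.sum_le_sum fun p _ => ?_
    have h := count_good (δ p.1.2) (vS p) (vT p) (hne p)
    rw [hw] at h
    exact h
  rw [← hIc]
  exact hsum.trans (Nat.mul_le_mul_left _ hinj)

end Pool.Agent.UD
end

section

set_option autoImplicit false

namespace Pool.Agent.UD

theorem B9a_dvd (m w : ℤ) (hw : 0 < w) (h : m / w ≠ (m + 1) / w) : w ∣ m + 1 := by
  have h1 := Int.emod_add_mul_ediv m w
  have h2 := Int.emod_nonneg m hw.ne'
  have h3 := Int.emod_lt_of_pos m hw
  by_cases h4 : m % w + 1 < w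
  · exfalso
    apply h
    have h5 : m + 1 = (m % w + 1) + w * (m / w) := by linarith
    rw [h5, Int.add_mul_ediv_left _ _ hw.ne', Int.ediv_eq_zero_of_lt (by omega) h4]
    simp
  · have h5 : m % w + 1 = w := by omega
    refine ⟨m / w + 1, ?_⟩
    linarith

theorem B9a_card (u v : ℤ) (w : ℕ) (hw : 0 < w) (h1 : |u - v| ≤ 1) :
    ((Finset.range w).filter (fun s : ℕ => (u + (s : ℤ)) / (w : ℤ) ≠ (v + (s : ℤ)) / (w : ℤ))).card
      ≤ if u ≠ v then 1 else 0 := by
  have hw' : (0 : ℤ) < w := by exact_mod_cast hw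
  split_ifs with huv
  · rw [Finset.card_le_one]
    intro s hs s' hs'
    rw [Finset.mem_filter, Finset.mem_range] at hs hs'
    have key : ∀ u v : ℤ, v = u + 1 → ∀ s s' : ℕ, s < w → s' < w →
        (u + (s : ℤ)) / (w : ℤ) ≠ (v + (s : ℤ)) / (w : ℤ) →
        (u + (s' : ℤ)) / (w : ℤ) ≠ (v + (s' : ℤ)) / (w : ℤ) → s = s' := by
      intro u v hv s s' hs hs' h h'
      subst hv
      have e1 : u + 1 + (s : ℤ) = u + s + 1 := by ring
      have e2 : u + 1 + (s' : ℤ) = u + s' + 1 := by ring
      rw [e1] at h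
      rw [e2] at h'
      have d1 := B9a_dvd _ _ hw' h
      have d2 := B9a_dvd _ _ hw' h'
      have d3 : (w : ℤ) ∣ (s : ℤ) - s' := by
        have := dvd_sub d1 d2
        have e : u + (s : ℤ) + 1 - (u + s' + 1) = (s : ℤ) - s' := by ring
        rwa [e] at this
      have h5 : |(s : ℤ) - s'| < w := by
        rw [abs_lt]
        constructor <;> omega
      have h6 := Int.eq_zero_of_abs_lt_dvd d3 h5
      omega
    rcases lt_or_gt_of_ne huv with hlt | hgt
    · have hv : v = u + 1 := by
        rw [abs_le] at h1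
        omega
      exact key u v hv s s' hs.1 hs'.1 hs.2 hs'.2
    · have hu : u = v + 1 := by
        rw [abs_le] at h1
        omega
      exact key v u hu s s' hs.1 hs'.1 (Ne.symm hs.2) (Ne.symm hs'.2)
  · rw [Nat.le_zero, Finset.card_eq_zero, Finset.filter_eq_empty_iff]
    intro s _ h
    have : u = v := by
      by_contra h0
      exact huv h0
    exact h (by rw [this])

/-- For integers `u ≠ v` with `|u - v| ≤ 1` exactly one `τ ∈ {0, ..., ω-1}` has `(u + τ)/ω ≠ (v + τ)/ω` (namely
`max u v + τ ≡ 0 mod ω`), for `u = v` none. Sum over `τ` and take the best `τ`. -/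
theorem offset_exists {E : Type*} (M : Finset E) (f g : E → ℤ)
    (hfg : ∀ e ∈ M, |f e - g e| ≤ 1) (ω : ℕ) (hω : 0 < ω) :
    ∃ τ : ℤ, ω * (M.filter (fun e => (f e + τ) / (ω : ℤ) ≠ (g e + τ) / (ω : ℤ))).card ≤
      (M.filter (fun e => f e ≠ g e)).card := by
  classical
  by_contra hcon
  push Not at hcon
  have h1 : ∑ s ∈ Finset.range ω,
      (M.filter (fun e => (f e + (s : ℤ)) / (ω : ℤ) ≠ (g e + (s : ℤ)) / (ω : ℤ))).card ≤
      (M.filter (fun e => f e ≠ g e)).card := by
    have e1 : ∀ s : ℕ, (M.filter (fun e => (f e + (s : ℤ)) / (ω : ℤ) ≠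
        (g e + (s : ℤ)) / (ω : ℤ))).card =
        ∑ e ∈ M, if (f e + (s : ℤ)) / (ω : ℤ) ≠ (g e + (s : ℤ)) / (ω : ℤ) then 1 else 0 := by
      intro s
      rw [Finset.card_filter]
    simp only [e1]
    rw [Finset.sum_comm, Finset.card_filter]
    refine Finset.sum_le_sum fun e he => ?_
    have := B9a_card (f e) (g e) ω hω (hfg e he)
    rwa [Finset.card_filter] at this
  have h2 : ∑ s ∈ Finset.range ω, (M.filter (fun e => f e ≠ g e)).card <
      ∑ s ∈ Finset.range ω, ω *
        (M.filter (fun e => (f e + (s : ℤ)) / (ω : ℤ) ≠ (g e + (s : ℤ)) / (ω : ℤ))).card :=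
    Finset.sum_lt_sum_of_nonempty ⟨0, Finset.mem_range.2 hω⟩ fun s _ => hcon (s : ℤ)
  rw [← Finset.mul_sum, Finset.sum_const, Finset.card_range, smul_eq_mul] at h2
  exact absurd (Nat.lt_of_mul_lt_mul_left h2) (not_lt.2 h1)

/-- Averaging: `∑_c |P_c| = |X|`, `∑_c |R ∩ P_c^2| = |R|` over the values `c` of `lab`. -/
theorem averaging {X L : Type*} [Fintype X] [DecidableEq X] [Nonempty X] (lab : X → L)
    (R : Finset (X × X)) (hR : ∀ q ∈ R, lab q.1 = lab q.2) (K M : ℕ)
    (h : K * Fintype.card X ≤ M * R.card) :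
    ∃ (c : L) (P : Finset X), P.Nonempty ∧ (∀ x, x ∈ P ↔ lab x = c) ∧
      K * P.card ≤ M * (R.filter (fun q => q.1 ∈ P ∧ q.2 ∈ P)).card := by
  classical
  by_contra hcon
  push Not at hcon
  let I : Finset L := Finset.univ.image lab
  let Pc : L → Finset X := fun c => Finset.univ.filter fun x => lab x = c
  have hI : I.Nonempty := by
    obtain ⟨x⟩ := ‹Nonempty X›
    exact ⟨lab x, Finset.mem_image_of_mem _ (Finset.mem_univ _)⟩
  have hlt : ∀ c ∈ I, M * (R.filter (fun q => lab q.1 = c)).card < K * (Pc c).card := by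
    intro c hc
    obtain ⟨x, _, rfl⟩ := Finset.mem_image.1 hc
    have h1 := hcon (lab x) (Pc (lab x)) ⟨x, by simp [Pc]⟩ (fun y => by simp [Pc])
    have h2 : R.filter (fun q => q.1 ∈ Pc (lab x) ∧ q.2 ∈ Pc (lab x)) =
        R.filter (fun q => lab q.1 = lab x) := by
      refine Finset.filter_congr fun q hq => ?_
      have := hR q hq
      simp only [Pc, Finset.mem_filter, Finset.mem_univ, true_and]
      constructor
      · exact fun h => h.1
      · exact fun h => ⟨h, this ▸ h⟩
    rwa [h2] at h1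
  have h1 := Finset.sum_lt_sum_of_nonempty hI hlt
  rw [← Finset.mul_sum, ← Finset.mul_sum] at h1
  have h2 : ∑ c ∈ I, (Pc c).card = Fintype.card X := by
    rw [← Finset.card_univ]
    exact (Finset.card_eq_sum_card_fiberwise fun x _ =>
      Finset.mem_coe.2 (Finset.mem_image_of_mem _ (Finset.mem_univ _))).symm
  have h3 : ∑ c ∈ I, (R.filter (fun q => lab q.1 = c)).card = R.card := by
    exact (Finset.card_eq_sum_card_fiberwise fun q _ =>
      Finset.mem_coe.2 (Finset.mem_image_of_mem _ (Finset.mem_univ _))).symm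
  rw [h2, h3] at h1
  omega

end Pool.Agent.UD
end

section

set_option autoImplicit false

namespace Pool.Agent.UD

variable {J Hc : Type*} [Fintype J] [DecidableEq J] [Fintype Hc] [DecidableEq Hc]

private theorem B9_div (a b ω : ℤ) (hω : 0 < ω) (h : a / ω = b / ω) : |a - b| < ω := by
  have h1 := Int.emod_add_mul_ediv a ω
  have h2 := Int.emod_add_mul_ediv b ω
  have h3 := Int.emod_nonneg a hω.ne'
  have h4 := Int.emod_lt_of_pos a hω
  have h5 := Int.emod_nonneg b hω.ne'
  have h6 := Int.emod_lt_of_pos b hω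
  rw [h] at h1
  rw [abs_lt]
  constructor <;> linarith

/-- THE CELL. `M = mv δ univ`. For `q = (i, i')` take `τ q` from `offset_exists` (`f e = Psi q e.1`,
`g e = Psi q e.2`, `Move.psi_le`). Call `e ∈ M` lost if for some `q` the windows `(Psi + τ q)/ω` of `e.1`, `e.2` differ:
`ω #lost ≤ ∑_q ω #lost_q ≤ ∑_q #changed_q = ∑_{e ∈ M} #{q changed} ≤ 2 w h #M` (`Move.psi_card`), `h = card Hc`, so
`2 #lost ≤ #M` as `4 w h ≤ ω` (if `h = 0` then `M` is empty). `R = M \ lost`, `#M ≤ 2 #R`. Label of `x`: the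
function `q ↦ (Psi q x + τ q)/ω` and the class of `x` for the setoid `Inv δ t` (`Move.inv`). `averaging` with
`K = (l+1) choose`, `M = 2^(2w+1)` and `count_moves`. In a class the windows agree, so `|Psi x - Psi y| < ω`. -/
theorem exists_cell {l : ℕ} (δ : J → Finset Hc) (w : ℕ) (hw : ∀ j, (δ j).card = w) (hw0 : 0 < w)
    (t ω : ℕ) (hω : 4 * w * Fintype.card Hc ≤ ω) (hω0 : 0 < ω) :
    ∃ P : Finset (Cfg J Hc l), P.Nonempty ∧
      (∀ x ∈ P, ∀ y ∈ P, Inv δ t x y) ∧
      (∀ x ∈ P, ∀ y ∈ P, ∀ i i', |Psi i i' x - Psi i i' y| < ω) ∧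
      (l + 1) * (Fintype.card J).choose (l + 1) * P.card ≤ 2 ^ (2 * w + 1) * (mv δ P).card := by
  classical
  let X := Cfg J Hc l
  let M : Finset (X × X) := mv δ (Finset.univ : Finset X)
  have hM : ∀ e ∈ M, Move δ e.1 e.2 := fun e he => ((mem_mv δ _ e).1 he).2.2
  have hoff : ∀ q : Hc × Hc, ∃ τ : ℤ,
      ω * (M.filter (fun e => (Psi q.1 q.2 e.1 + τ) / (ω : ℤ) ≠
        (Psi q.1 q.2 e.2 + τ) / (ω : ℤ))).card ≤
      (M.filter (fun e => Psi q.1 q.2 e.1 ≠ Psi q.1 q.2 e.2)).card := fun q =>
    offset_exists M (fun e => Psi q.1 q.2 e.1) (fun e => Psi q.1 q.2 e.2)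
      (fun e he => (hM e he).psi_le q.1 q.2) ω hω0
  choose τ hτ using hoff
  let R : Finset (X × X) := M.filter (fun e => ∀ q : Hc × Hc,
    (Psi q.1 q.2 e.1 + τ q) / (ω : ℤ) = (Psi q.1 q.2 e.2 + τ q) / (ω : ℤ))
  let W : Finset (X × X) := M.filter (fun e => ¬ ∀ q : Hc × Hc,
    (Psi q.1 q.2 e.1 + τ q) / (ω : ℤ) = (Psi q.1 q.2 e.2 + τ q) / (ω : ℤ))
  have hRW : R.card + W.card = M.card := Finset.card_filter_add_card_filter_not _
  have hW1 : W.card ≤ ∑ q : Hc × Hc, (M.filter (fun e => (Psi q.1 q.2 e.1 + τ q) / (ω : ℤ) ≠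
        (Psi q.1 q.2 e.2 + τ q) / (ω : ℤ))).card := by
    refine le_trans (Finset.card_le_card ?_) Finset.card_biUnion_le
    intro e he
    obtain ⟨he1, he2⟩ := Finset.mem_filter.1 he
    push Not at he2
    obtain ⟨q, hq⟩ := he2
    exact Finset.mem_biUnion.2 ⟨q, Finset.mem_univ _, Finset.mem_filter.2 ⟨he1, hq⟩⟩
  have hsum : ∑ q : Hc × Hc, (M.filter (fun e => Psi q.1 q.2 e.1 ≠ Psi q.1 q.2 e.2)).card ≤
      M.card * (2 * w * Fintype.card Hc) := by
    have h1 : ∑ q : Hc × Hc, (M.filter (fun e => Psi q.1 q.2 e.1 ≠ Psi q.1 q.2 e.2)).card =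
        ∑ e ∈ M, (Finset.univ.filter (fun q : Hc × Hc =>
          Psi q.1 q.2 e.1 ≠ Psi q.1 q.2 e.2)).card := by
      simp only [Finset.card_filter]
      exact Finset.sum_comm
    rw [h1, ← smul_eq_mul, ← Finset.sum_const]
    exact Finset.sum_le_sum fun e he => (hM e he).psi_card w hw
  have hW2 : ω * W.card ≤ M.card * (2 * w * Fintype.card Hc) := by
    calc ω * W.card ≤ ω * ∑ q : Hc × Hc, (M.filter (fun e => (Psi q.1 q.2 e.1 + τ q) / (ω : ℤ) ≠
        (Psi q.1 q.2 e.2 + τ q) / (ω : ℤ))).card := Nat.mul_le_mul_left _ hW1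
      _ = ∑ q : Hc × Hc, ω * (M.filter (fun e => (Psi q.1 q.2 e.1 + τ q) / (ω : ℤ) ≠
        (Psi q.1 q.2 e.2 + τ q) / (ω : ℤ))).card := Finset.mul_sum _ _ _
      _ ≤ ∑ q : Hc × Hc, (M.filter (fun e => Psi q.1 q.2 e.1 ≠ Psi q.1 q.2 e.2)).card :=
        Finset.sum_le_sum fun q _ => hτ q
      _ ≤ _ := hsum
  have hW3 : 2 * W.card ≤ M.card := by
    apply Nat.le_of_mul_le_mul_left _ hω0
    calc ω * (2 * W.card) = 2 * (ω * W.card) := by ring
      _ ≤ 2 * (M.card * (2 * w * Fintype.card Hc)) := Nat.mul_le_mul_left _ hW2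
      _ = (4 * w * Fintype.card Hc) * M.card := by ring
      _ ≤ ω * M.card := Nat.mul_le_mul_right _ hω
  have hMR : M.card ≤ 2 * R.card := by omega
  let St : Setoid X := ⟨Inv δ t, ⟨Inv.refl δ t, fun h => h.symm, fun h h' => h.trans h'⟩⟩
  let lab : X → (Hc × Hc → ℤ) × Quotient St := fun x =>
    (fun q => (Psi q.1 q.2 x + τ q) / (ω : ℤ), Quotient.mk St x)
  have hR : ∀ q ∈ R, lab q.1 = lab q.2 := by
    intro e he
    obtain ⟨he1, he2⟩ := Finset.mem_filter.1 he
    refine Prod.ext (funext fun q => he2 q) ?_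
    exact Quotient.sound (s := St) ((hM e he1).inv t)
  have : Nonempty X := ⟨fun _ => ∅⟩
  obtain ⟨c, P, hPne, hP, hK⟩ := averaging lab R hR
    ((l + 1) * (Fintype.card J).choose (l + 1)) (2 ^ (2 * w + 1)) (by
      have h1 := count_moves (l := l) δ w hw hw0
      calc (l + 1) * (Fintype.card J).choose (l + 1) * Fintype.card X
          ≤ 2 ^ (2 * w) * M.card := h1
        _ ≤ 2 ^ (2 * w) * (2 * R.card) := Nat.mul_le_mul_left _ hMR
        _ = 2 ^ (2 * w + 1) * R.card := by rw [pow_succ]; ring)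
  refine ⟨P, hPne, ?_, ?_, ?_⟩
  · intro x hx y hy
    have h1 : lab x = lab y := by rw [(hP x).1 hx, (hP y).1 hy]
    have h2 : Quotient.mk St x = Quotient.mk St y := congrArg Prod.snd h1
    exact Quotient.exact h2
  · intro x hx y hy i i'
    have h1 : lab x = lab y := by rw [(hP x).1 hx, (hP y).1 hy]
    have h2 : (Psi i i' x + τ (i, i')) / (ω : ℤ) = (Psi i i' y + τ (i, i')) / (ω : ℤ) :=
      congrFun (congrArg Prod.fst h1) (i, i')
    have h3 := B9_div _ _ (ω : ℤ) (by exact_mod_cast hω0) h2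
    have h4 : Psi i i' x + τ (i, i') - (Psi i i' y + τ (i, i')) = Psi i i' x - Psi i i' y := by
      ring
    rwa [h4] at h3
  · refine hK.trans (Nat.mul_le_mul_left _ (Finset.card_le_card ?_))
    intro e he
    obtain ⟨he1, he2, he3⟩ := Finset.mem_filter.1 he
    obtain ⟨he4, -⟩ := Finset.mem_filter.1 he1
    exact (mem_mv δ P e).2 ⟨he2, he3, hM e he4⟩

end Pool.Agent.UD
end
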