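import Pool.Agent.Lib.MP_05df08_co.Q.A5
import Pool.Agent.Lib.MP_05df08_co.Base
import Pool.Agent.Lib.MP_05df08_co.Mg.G003
import Pool.Agent.Lib.MP_05df08_co.Mg.G004
import Pool.Agent.Lib.MP_05df08_co.Mg.G005

section

/-! # MP_05df08_co, Part A: the poles in one unit vector, the claim -/

namespace Pool.Agent.UDQ

open Complex ComplexConjugate Filter Topology

variable {ι : Type*} [DecidableEq ι] [Fintype ι]

theorem exists_gen {al : ι → ℝ} (hpos : ∀ j, 0 < al j) (hinj : Function.Injective al) (k : ι) :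
    ∃ w : ι → Circle, (∀ D : Finset ι, D.Nonempty → X al w D ≠ 0) ∧
      (∀ D : Finset ι, k ∉ D → (st al w D).a (1 / al k ^ 2) ≠ 0) ∧
      (∀ D D' : Finset ι, k ∉ D → k ∉ D' → D ≠ D' →
        (st al w D).c (1 / al k ^ 2) * (st al w D').a (1 / al k ^ 2) -
          (st al w D').c (1 / al k ^ 2) * (st al w D).a (1 / al k ^ 2) ≠ 0) := by
  classical
  have g1 := dense_ne (Finset.univ.filter (fun D : Finset ι => D.Nonempty))
    (fun D φ => X al (ew φ) D) (fun D _ φ => an_X hpos hinj D φ)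
    (fun D hD => by
      obtain ⟨w, hw⟩ := x_ne hpos hinj (Finset.mem_filter.1 hD).2
      obtain ⟨φ, rfl⟩ := exists_angle w
      exact ⟨φ, hw⟩)
  have g2 := dense_ne (Finset.univ.filter (fun D : Finset ι => k ∉ D))
    (fun D φ => (st al (ew φ) D).a (1 / al k ^ 2)) (fun D _ φ => (an_st hpos hinj D).a _ φ)
    (fun D hD => by
      obtain ⟨w, hw⟩ := a_ne hpos hinj (Finset.mem_filter.1 hD).2
      obtain ⟨φ, rfl⟩ := exists_angle w
      exact ⟨φ, hw⟩)
  have g3 := dense_ne (Finset.univ.filter (fun p : Finset ι × Finset ι =>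
      k ∉ p.1 ∧ k ∉ p.2 ∧ p.1 ≠ p.2))
    (fun p φ => (st al (ew φ) p.1).c (1 / al k ^ 2) * (st al (ew φ) p.2).a (1 / al k ^ 2) -
          (st al (ew φ) p.2).c (1 / al k ^ 2) * (st al (ew φ) p.1).a (1 / al k ^ 2))
    (fun p _ φ => (((an_st hpos hinj p.1).c _ φ).mul ((an_st hpos hinj p.2).a _ φ)).sub
      (((an_st hpos hinj p.2).c _ φ).mul ((an_st hpos hinj p.1).a _ φ)))
    (fun p hp => by
      obtain ⟨hp1, hp2, hp3⟩ := (Finset.mem_filter.1 hp).2
      obtain ⟨w, hw⟩ := ratio_ne hpos hinj hp1 hp2 hp3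
      obtain ⟨φ, rfl⟩ := exists_angle w
      exact ⟨φ, hw⟩)
  have d12 := g1.2.inter_of_isOpen_left g2.2 g1.1
  have d := d12.inter_of_isOpen_left g3.2 (g1.1.inter g2.1)
  obtain ⟨φ, ⟨h1, h2⟩, h3⟩ := d.nonempty
  refine ⟨ew φ, fun D hD => h1 D ?_, fun D hD => h2 D ?_, fun D D' hD hD' hne => h3 (D, D') ?_⟩
  · exact Finset.mem_filter.2 ⟨Finset.mem_univ _, hD⟩
  · exact Finset.mem_filter.2 ⟨Finset.mem_univ _, hD⟩
  · exact Finset.mem_filter.2 ⟨Finset.mem_univ _, hD, hD', hne⟩

omit [Fintype ι] in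
theorem y0_insert {al : ι → ℝ} (hpos : ∀ j, 0 < al j) (hinj : Function.Injective al)
    (w : ι → Circle) {k : ι} {E : Finset ι} (hk : k ∉ E) (z : Circle) :
    y0 al (Function.update w k z) (insert k E) =
      (y0 al w E + (al k : ℂ) ^ 2 * X al w E) + X al w E ^ 2 * al k *
        ((conj (al k * (st al w E).a (1 / al k ^ 2)) - conj ((st al w E).c (1 / al k ^ 2)) * z) /
          ((al k * (st al w E).a (1 / al k ^ 2)) * z - (st al w E).c (1 / al k ^ 2))) := by
  have hs : st al (Function.update w k z) E = st al w E :=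
    st_congr al (fun i hi => by
      have : i ≠ k := fun h => hk (h ▸ hi)
      rw [Function.update_of_ne this])
  have hc0 : (st al w E).c 0 = X al w E := (run_zero al w E.toList).2
  have ht := tau_st_ne hpos hinj w hk z
  have hi : inc (al k) z (st al w E) ≠ 0 := by
    intro h
    have := norm_inc (hpos k) ht
    rw [h, norm_zero] at this
    exact (hpos k).ne this
  have hr : (al k : ℂ) ≠ 0 := by exact_mod_cast (hpos k).ne'
  have h1 : inc (al k) z (st al w E) * conj (inc (al k) z (st al w E)) = (al k : ℂ) ^ 2 := by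
    rw [mul_conj, normSq_inc ht]; push_cast; rfl
  have hden : conj (al k * (st al w E).a (1 / al k ^ 2)) -
      conj ((st al w E).c (1 / al k ^ 2)) * z ≠ 0 := by
    rw [← den_eq]; exact (map_ne_zero _).2 ht
  have h2 : conj (inc (al k) z (st al w E)) = al k *
      ((conj (al k * (st al w E).a (1 / al k ^ 2)) - conj ((st al w E).c (1 / al k ^ 2)) * z) /
          ((al k * (st al w E).a (1 / al k ^ 2)) * z - (st al w E).c (1 / al k ^ 2))) := by
    have h3 : conj (inc (al k) z (st al w E)) = (al k : ℂ) ^ 2 / inc (al k) z (st al w E) := by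
      rw [eq_div_iff hi, mul_comm]; exact h1
    have h4 := inc_eq (r := al k) z (st al w E)
    have hnum : (al k * (st al w E).a (1 / al k ^ 2)) * z - (st al w E).c (1 / al k ^ 2) ≠ 0 := by
      intro h0
      rw [h0, mul_zero, zero_div] at h4
      exact hi h4
    rw [h3, h4]
    field_simp
  unfold y0
  rw [st_insert hpos hinj _ hk, hs, Function.update_self]
  simp only [step, stp]
  rw [hc0, h2]
  rw [h2] at h1
  unfold X
  linear_combination (st al w E).x * h1

theorem kappa_zero {al : ι → ℝ} (hpos : ∀ j, 0 < al j) (hinj : Function.Injective al)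
    {V : Finset (Finset ι)} {th et : Finset ι → ℝ} (h1 : ∑ U ∈ V, th U = 0)
    (h2 : ∑ U ∈ V, et U = 0)
    (H : ∀ w : ι → Circle, (cmb V al w th * conj (cmb V al w et)).im = 0)
    {S U : Finset ι} (hS : S ∈ V) (hU : U ∈ V) (hSU : 1 < (symmDiff U S).card) :
    et S * th U - th S * et U = 0 := by
  obtain ⟨k, hk, k', hk', hkk⟩ := Finset.one_lt_card.1 hSU
  obtain ⟨w, g1, g2, g3⟩ := exists_gen hpos hinj k
  set E : Finset ι → Finset ι := fun U => (symmDiff U S).erase k with hE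
  have hkE : ∀ U, k ∉ E U := fun U => Finset.notMem_erase _ _
  set V' := V.filter (fun U => k ∈ symmDiff U S) with hV'
  have hins : ∀ U ∈ V', insert k (E U) = symmDiff U S := fun U hU =>
    Finset.insert_erase (Finset.mem_filter.1 hU).2
  have hr : (al k : ℂ) ≠ 0 := by exact_mod_cast (hpos k).ne'
  have key := mob_poles V'
    (fun U => ((et S * th U - th S * et U : ℝ) : ℂ) * (X al w (E U) ^ 2 * al k))
    (fun U => al k * (st al w (E U)).a (1 / al k ^ 2))
    (fun U => (st al w (E U)).c (1 / al k ^ 2))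
    (∑ U ∈ V.filter (fun U => ¬ k ∈ symmDiff U S), ((et S * th U - th S * et U : ℝ) : ℂ) *
        y0 al w (symmDiff U S) +
      ∑ U ∈ V', ((et S * th U - th S * et U : ℝ) : ℂ) *
        (y0 al w (E U) + (al k : ℂ) ^ 2 * X al w (E U)))
    (fun U _ => mul_ne_zero hr (g2 _ (hkE U)))
    (fun U _ => by
      intro h
      have h3 := nrm_ne hpos hinj w (hkE U)
      apply h3
      unfold nrm
      rw [normSq_eq_norm_sq, normSq_eq_norm_sq, ← h, norm_mul, norm_real,
        Real.norm_of_nonneg (hpos k).le]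
      have := (hpos k).ne'
      field_simp
      ring)
    (fun U hU U' hU' hne h => by
      have hne' : E U ≠ E U' := by
        intro h'
        apply hne
        have h4 := hins U hU
        rw [h', hins U' hU'] at h4
        have h5 := congrArg (fun T => symmDiff T S) h4
        simpa using h5.symm
      apply g3 _ _ (hkE U) (hkE U') hne'
      have h3 : (al k : ℂ) * ((st al w (E U)).c (1 / al k ^ 2) *
        (st al w (E U')).a (1 / al k ^ 2) -
          (st al w (E U')).c (1 / al k ^ 2) * (st al w (E U)).a (1 / al k ^ 2)) = 0 := by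
        linear_combination h
      exact (mul_eq_zero.1 h3).resolve_left hr)
    (by
      intro z hz
      set zc : Circle := ⟨z, mem_sphere_zero_iff_norm.2 hz⟩ with hzc
      have h3 := sum_y hpos hinj h1 h2 H hS (Function.update w k zc)
      rw [← Finset.sum_filter_add_sum_filter_not V (fun U => k ∈ symmDiff U S)] at h3
      have e1 : ∑ U ∈ V.filter (fun U => ¬ k ∈ symmDiff U S),
          ((et S * th U - th S * et U : ℝ) : ℂ) * y0 al (Function.update w k zc) (symmDiff U S) =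
          ∑ U ∈ V.filter (fun U => ¬ k ∈ symmDiff U S), ((et S * th U - th S * et U : ℝ) : ℂ) *
        y0 al w (symmDiff U S) := by
        refine Finset.sum_congr rfl fun U hU => ?_
        have h4 := (Finset.mem_filter.1 hU).2
        have h5 : st al (Function.update w k zc) (symmDiff U S) = st al w (symmDiff U S) :=
          st_congr al (fun i hi => by
            have : i ≠ k := fun h => h4 (h ▸ hi)
            rw [Function.update_of_ne this])
        unfold y0
        rw [h5]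
      have e2 : ∑ U ∈ V', ((et S * th U - th S * et U : ℝ) : ℂ) *
          y0 al (Function.update w k zc) (symmDiff U S) = ∑ U ∈ V',
          (((et S * th U - th S * et U : ℝ) : ℂ) *
            (y0 al w (E U) + (al k : ℂ) ^ 2 * X al w (E U)) +
          (((et S * th U - th S * et U : ℝ) : ℂ) * (X al w (E U) ^ 2 * al k)) *
            ((conj (al k * (st al w (E U)).a (1 / al k ^ 2)) -
              conj ((st al w (E U)).c (1 / al k ^ 2)) * z) /
          ((al k * (st al w (E U)).a (1 / al k ^ 2)) * z - (st al w (E U)).c (1 / al k ^ 2)))) := by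
        refine Finset.sum_congr rfl fun U hU => ?_
        rw [← hins U hU, y0_insert hpos hinj w (hkE U) zc]
        ring
      rw [e1, e2, Finset.sum_add_distrib] at h3
      linear_combination h3)
  have hUV : U ∈ V' := Finset.mem_filter.2 ⟨hU, hk⟩
  have h3 := key U hUV
  have hne : (E U).Nonempty := ⟨k', Finset.mem_erase.2 ⟨fun h => hkk h.symm, hk'⟩⟩
  have hx := g1 _ hne
  have h4 : ((et S * th U - th S * et U : ℝ) : ℂ) = 0 :=
    (mul_eq_zero.1 h3).resolve_right (mul_ne_zero (pow_ne_zero 2 hx) hr)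
  exact_mod_cast h4

omit [Fintype ι] in
theorem card_sd (S : Finset ι) (i : ι) : (i ∈ S ∧ (symmDiff S {i}).card + 1 = S.card) ∨
    (i ∉ S ∧ (symmDiff S {i}).card = S.card + 1) := by
  by_cases h : i ∈ S
  · left
    obtain ⟨E, hE, rfl⟩ : ∃ E, i ∉ E ∧ insert i E = S :=
      ⟨S.erase i, Finset.notMem_erase _ _, Finset.insert_erase h⟩
    rw [sd_insert hE, Finset.card_insert_of_notMem hE]
    exact ⟨h, rfl⟩
  · right
    rw [sd_notMem h, Finset.card_insert_of_notMem h]
    exact ⟨h, rfl⟩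

omit [Fintype ι] in
theorem sd_ne {S U : Finset ι} (h : S ≠ U) (h' : ¬ 1 < (symmDiff U S).card) :
    ∃ i, U = symmDiff S {i} := by
  have h1 : (symmDiff U S).card = 1 := by
    have : (symmDiff U S).card ≠ 0 := by
      intro h0
      rw [Finset.card_eq_zero] at h0
      exact h (symmDiff_eq_bot.1 h0).symm
    omega
  obtain ⟨i, hi⟩ := Finset.card_eq_one.1 h1
  refine ⟨i, ?_⟩
  rw [← hi, symmDiff_comm U S, ← symmDiff_assoc, symmDiff_self, bot_symmDiff]

omit [Fintype ι] in
/-- The combinatorial end: the graph `κ ≠ 0` lives on two adjacent levels. -/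
theorem two_level {V : Finset (Finset ι)} {l : ℕ} (hV : ∀ S ∈ V, S.card = l ∨ S.card = l + 1)
    {th et : Finset ι → ℝ} (h1 : ∑ U ∈ V, th U = 0) (h2 : ∑ U ∈ V, et U = 0)
    (hk : ∀ S ∈ V, ∀ U ∈ V, 1 < (symmDiff U S).card → et S * th U - th S * et U = 0) :
    ∀ S ∈ V, ∀ U ∈ V, et S * th U - th S * et U = 0 := by
  have hrow : ∀ S U : Finset ι, U ∈ V → et S * th U - th S * et U ≠ 0 →
      ∃ U' ∈ V, U' ≠ U ∧ et S * th U' - th S * et U' ≠ 0 := by
    intro S U hU hne
    by_contra hc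
    push Not at hc
    have h3 : ∑ U' ∈ V, (et S * th U' - th S * et U') = 0 := by
      rw [Finset.sum_sub_distrib, ← Finset.mul_sum, ← Finset.mul_sum, h1, h2]; ring
    rw [Finset.sum_eq_single_of_mem U hU (fun b hb hbU => hc b hb hbU)] at h3
    exact hne h3
  intro S hS U hU
  by_contra hne
  obtain ⟨U', hU', hUU', hne1⟩ := hrow S U hU hne
  have hne' : et U * th S - th U * et S ≠ 0 := fun h => hne (by linarith)
  obtain ⟨S', hS', hSS', hne2⟩ := hrow U S hS hne'
  have hSU : S ≠ U := by rintro rfl; exact hne (by ring)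
  have hSU1 : S ≠ U' := by rintro rfl; exact hne1 (by ring)
  have hUS1 : U ≠ S' := by rintro rfl; exact hne2 (by ring)
  obtain ⟨i, hi⟩ := sd_ne hSU (fun h => hne (hk S hS U hU h))
  obtain ⟨j, hj⟩ := sd_ne hSU1 (fun h => hne1 (hk S hS U' hU' h))
  obtain ⟨m, hm⟩ := sd_ne hUS1 (fun h => hne2 (hk U hU S' hS' h))
  have hij : i ≠ j := fun h => hUU' (by rw [hi, hj, h])
  have hmi : m ≠ i := by
    rintro rfl
    apply hSS'
    rw [hm, hi, symmDiff_assoc, symmDiff_self, symmDiff_bot]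
  -- `κ_{S S'} = 0`
  have hSS0 : et S * th S' - th S * et S' = 0 := by
    refine hk S hS S' hS' ?_
    have e1 : symmDiff S' S = symmDiff {i} {m} := by
      rw [hm, hi, symmDiff_comm, symmDiff_assoc S {i} {m}, ← symmDiff_assoc S S, symmDiff_self,
        bot_symmDiff]
    rw [e1]
    refine Finset.one_lt_card.2 ⟨i, ?_, m, ?_, hmi.symm⟩
    · simp [Finset.mem_symmDiff, hmi.symm]
    · simp [Finset.mem_symmDiff, hmi]
  have hpl : (et S * th U - th S * et U) * (et U' * th S' - th U' * et S') =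
      (et S * th U' - th S * et U') * (et U * th S' - th U * et S') := by
    linear_combination (et U' * th U - th U' * et U) * hSS0
  have hne3 : et U' * th S' - th U' * et S' ≠ 0 := by
    intro h0
    rw [h0, mul_zero] at hpl
    exact mul_ne_zero hne1 hne2 hpl.symm
  have hUS2 : U' ≠ S' := by rintro rfl; exact hne3 (by ring)
  have hcard : ¬ 1 < (symmDiff S' U').card := fun h => hne3 (hk U' hU' S' hS' h)
  have hmj : m = j := by
    by_contra hmj
    apply hcard
    have e1 : symmDiff S' U' = symmDiff (symmDiff {i} {m}) {j} := by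
      rw [hm, hi, hj, symmDiff_assoc S {i} {m}, symmDiff_comm S (symmDiff {i} {m}),
        symmDiff_assoc, ← symmDiff_assoc S S, symmDiff_self, bot_symmDiff]
    rw [e1]
    refine Finset.one_lt_card.2 ⟨i, ?_, m, ?_, hmi.symm⟩
    · simp [Finset.mem_symmDiff, hmi.symm, hij]
    · simp [Finset.mem_symmDiff, hmi, hmj]
  rw [hmj] at hm
  have c0 := hV S hS
  have c1 := hV U hU
  have c2 := hV U' hU'
  have c3 := hV S' hS'
  have k1 := card_sd S i
  have k2 := card_sd S j
  have k3 := card_sd U j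
  rw [← hi] at k1
  rw [← hj] at k2
  rw [← hm] at k3
  have hjU : j ∈ U ↔ j ∈ S := by
    rw [hi]
    simp [Finset.mem_symmDiff, hij.symm]
  by_cases hjS : j ∈ S
  · have hjU' := hjU.2 hjS
    simp only [hjS, hjU', not_true, true_and, false_and, or_false] at k2 k3
    omega
  · have hjU' : j ∉ U := fun h => hjS (hjU.1 h)
    simp only [hjS, hjU', not_false_iff, true_and, false_and, false_or] at k2 k3
    omega

/-- **Part A for one pair.** -/
theorem claim {al : ι → ℝ} (hpos : ∀ j, 0 < al j) (hinj : Function.Injective al)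
    {V : Finset (Finset ι)} {l : ℕ} (hV : ∀ S ∈ V, S.card = l ∨ S.card = l + 1)
    {th et : Finset ι → ℝ} (h1 : ∑ U ∈ V, th U = 0) (h2 : ∑ U ∈ V, et U = 0)
    (hne : ∃ S ∈ V, ∃ T ∈ V, th S * et T ≠ th T * et S) :
    ∃ w : ι → Circle, (cmb V al w th * conj (cmb V al w et)).im ≠ 0 := by
  by_contra hc
  push Not at hc
  obtain ⟨S, hS, T, hT, h⟩ := hne
  have := two_level hV h1 h2 (fun S hS U hU h => kappa_zero hpos hinj h1 h2 hc hS hU h) S hS T hT
  exact h (by linarith)

/-- **Part A for finitely many pairs.** -/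
theorem claim_fin {κ : Type*} (s : Finset κ) {al : ι → ℝ} (hpos : ∀ j, 0 < al j)
    (hinj : Function.Injective al) {V : Finset (Finset ι)} {l : ℕ}
    (hV : ∀ S ∈ V, S.card = l ∨ S.card = l + 1) (th et : κ → Finset ι → ℝ)
    (h1 : ∀ k ∈ s, ∑ U ∈ V, th k U = 0) (h2 : ∀ k ∈ s, ∑ U ∈ V, et k U = 0)
    (hne : ∀ k ∈ s, ∃ S ∈ V, ∃ T ∈ V, th k S * et k T ≠ th k T * et k S) :
    ∃ w : ι → Circle, ∀ k ∈ s, (cmb V al w (th k) * conj (cmb V al w (et k))).im ≠ 0 := by
  have him : ∀ z : ℂ, z - conj z ≠ 0 ↔ z.im ≠ 0 := by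
    intro z
    rw [sub_conj]
    simp
  have han : ∀ (f : Finset ι → ℝ) (φ : ι → ℝ),
      AnalyticAt ℝ (fun φ : ι → ℝ => cmb V al (ew φ) f) φ := by
    intro f φ
    have : (fun φ : ι → ℝ => cmb V al (ew φ) f) =
        fun φ => ∑ U ∈ V, (fun φ => (f U : ℂ) * X al (ew φ) U) φ := rfl
    rw [this]
    exact Finset.analyticAt_fun_sum V (fun U _ => analyticAt_const.mul (an_X hpos hinj U φ))
  have hd := (dense_ne s (fun k φ => cmb V al (ew φ) (th k) * conj (cmb V al (ew φ) (et k)) -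
      conj (cmb V al (ew φ) (th k) * conj (cmb V al (ew φ) (et k))))
    (fun k _ φ => ((han (th k) φ).mul (conj_an (han (et k) φ))).sub
      (conj_an ((han (th k) φ).mul (conj_an (han (et k) φ)))))
    (fun k hk => by
      obtain ⟨w, hw⟩ := claim hpos hinj hV (h1 k hk) (h2 k hk) (hne k hk)
      obtain ⟨φ, rfl⟩ := exists_angle w
      exact ⟨φ, (him _).2 hw⟩)).2
  obtain ⟨φ, hφ⟩ := hd.nonempty
  exact ⟨ew φ, fun k hk => (him _).1 (hφ k hk)⟩

end Pool.Agent.UDQ
end

section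

set_option autoImplicit false

open scoped ComplexConjugate
open Complex

namespace Pool.Agent.UD

variable {ι : Type*} [Fintype ι] [DecidableEq ι]

/-- PART A (from `Pool.Agent.UDQ.claim_fin`). -/
theorem partA (α : ι → ℝ) (hα : Len α) (l : ℕ) (F : Finset ((Vx ι l → ℝ) × (Vx ι l → ℝ)))
    (hF : ∀ p ∈ F, ∑ S, p.1 S = 0 ∧ ∑ S, p.2 S = 0 ∧ ∃ S U, p.2 S * p.1 U ≠ p.1 S * p.2 U) :
    ∃ X : Finset ι → ℂ, (∀ S j, j ∉ S → ‖X (insert j S) - X S‖ = α j) ∧
      ∀ p ∈ F, Cr l X p.1 p.2 ≠ 0 := by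
  classical
  set V : Finset (Finset ι) := Finset.univ.filter (fun S => S.card = l ∨ S.card = l + 1) with hV
  have hmem : ∀ S : Finset ι, S ∈ V ↔ (S.card = l ∨ S.card = l + 1) := fun S => by
    rw [hV, Finset.mem_filter]
    exact ⟨fun h => h.2, fun h => ⟨Finset.mem_univ _, h⟩⟩
  set e : (Vx ι l → ℝ) → Finset ι → ℝ := fun f S =>
    if h : S.card = l ∨ S.card = l + 1 then f ⟨S, h⟩ else 0 with he
  have hev : ∀ (f : Vx ι l → ℝ) (S : Vx ι l), e f S.1 = f S := by
    intro f S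
    simp only [he]
    rw [dif_pos S.2]
  have hsum : ∀ {M : Type} [AddCommMonoid M] (G : Finset ι → M),
      ∑ S ∈ V, G S = ∑ S : Vx ι l, G S.1 := by
    intro M _ G
    exact (Finset.sum_subtype V hmem G)
  obtain ⟨w, hw⟩ := UDQ.claim_fin F hα.1 hα.2 (V := V) (l := l) (fun S hS => (hmem S).1 hS)
    (fun p => e p.1) (fun p => e p.2)
    (fun p hp => by
      rw [hsum]
      simp only [hev]
      exact (hF p hp).1)
    (fun p hp => by
      rw [hsum]
      simp only [hev]
      exact (hF p hp).2.1)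
    (fun p hp => by
      obtain ⟨S, U, h⟩ := (hF p hp).2.2
      refine ⟨S.1, (hmem _).2 S.2, U.1, (hmem _).2 U.2, ?_⟩
      simp only [hev]
      intro h0
      apply h
      linarith)
  refine ⟨UDQ.X α w, fun S j hj => UDQ.C1 hα.1 hα.2 w hj, fun p hp => ?_⟩
  have h3 := hw p hp
  have h4 : ∀ f : Vx ι l → ℝ, UDQ.cmb V α w (e f) = ∑ S : Vx ι l, (f S : ℂ) * UDQ.X α w S.1 := by
    intro f
    unfold UDQ.cmb
    rw [hsum]
    simp only [hev]
  rw [h4, h4] at h3
  exact h3

end Pool.Agent.UD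
end

section

set_option autoImplicit false

open scoped ComplexConjugate
open Complex

namespace Pool.Agent.UD

/-- the point of the plane of a configuration -/
noncomputable def ptC {J Hc : Type*} [Fintype J] [DecidableEq J] [Fintype Hc] {l : ℕ} (g : Hc → ℝ)
    (X : Finset J → ℂ) (x : Cfg J Hc l) : ℂ := ∑ S : Vx J l, (gs g (x S) : ℂ) * X S.1

theorem C1_Cr {J Hc : Type*} [Fintype J] [DecidableEq J] [Fintype Hc] {l : ℕ} (g : Hc → ℝ)
    (X : Finset J → ℂ) (x y z : Cfg J Hc l) :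
    Cr l X (fun S => gs g (y S) - gs g (x S)) (fun S => gs g (z S) - gs g (x S)) =
      ((ptC g X y - ptC g X x) * conj (ptC g X z - ptC g X x)).im := by
  unfold Cr ptC
  rw [← Finset.sum_sub_distrib, ← Finset.sum_sub_distrib]
  have e1 : ∀ y : Cfg J Hc l, (∑ S : Vx J l, (((gs g (y S) - gs g (x S) : ℝ)) : ℂ) * X S.1) =
      ∑ S : Vx J l, ((gs g (y S) : ℂ) * X S.1 - (gs g (x S) : ℂ) * X S.1) := by
    intro y
    apply Finset.sum_congr rfl
    intro S _
    push_cast
    ring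
  rw [e1 y, e1 z]

theorem C1_core {J Hc : Type} [Fintype J] [DecidableEq J] [Fintype Hc] [DecidableEq Hc] {l : ℕ}
    (δ : J → Finset Hc) (t ω : ℕ) (hδ : ∀ j, (δ j).Nonempty)
    (ht : 1 ≤ t) (hω : 2 * ω ≤ 2 ^ (t + 1))
    (hind : ∀ B : Finset J, B.card ≤ 2 * t → LinearIndepOn ℚ (fun j => ivec (δ j)) (B : Set J))
    (P : Finset (Cfg J Hc l)) (hinv : ∀ x ∈ P, ∀ y ∈ P, Inv δ t x y)
    (hwin : ∀ x ∈ P, ∀ y ∈ P, ∀ i i', |Psi i i' x - Psi i i' y| < ω) (h3 : 3 ≤ P.card) :
    ∃ S : Finset ℂ, S.card = P.card ∧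
    (∀ x ∈ S, ∀ y ∈ S, ∀ z ∈ S, x ≠ y → y ≠ z → x ≠ z → ((y - x) * conj (z - x)).im ≠ 0) ∧
    (mv δ P).card ≤ ((S ×ˢ S).filter (fun p => ‖p.1 - p.2‖ = 1)).card := by
  classical
  obtain ⟨g, hg⟩ := exists_gen Hc
  have hpos : ∀ j, 0 < gs g (δ j) := by
    intro j
    unfold gs
    exact Finset.sum_pos (fun i _ => hg.pos i) (hδ j)
  let α : J → ℝ := fun j => 1 / gs g (δ j)
  have hα : Len α := by
    refine ⟨fun j => one_div_pos.mpr (hpos j), ?_⟩
    intro j k hjk
    apply gs_delta_inj δ g hg (fun B hB => hind B (by omega))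
    have h1 : 1 / gs g (δ j) = 1 / gs g (δ k) := hjk
    have := one_div_one_div (gs g (δ j))
    rw [h1, one_div_one_div] at this
    exact this.symm
  let T3 := (P ×ˢ (P ×ˢ P)).filter (fun q => q.1 ≠ q.2.1 ∧ q.2.1 ≠ q.2.2 ∧ q.1 ≠ q.2.2)
  let F : Finset ((Vx J l → ℝ) × (Vx J l → ℝ)) := T3.image (fun q =>
    (fun S => gs g (q.2.1 S) - gs g (q.1 S), fun S => gs g (q.2.2 S) - gs g (q.1 S)))
  have hF : ∀ p ∈ F, ∑ S, p.1 S = 0 ∧ ∑ S, p.2 S = 0 ∧ ∃ S U, p.2 S * p.1 U ≠ p.1 S * p.2 U := by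
    intro p hp
    obtain ⟨q, hq, rfl⟩ := Finset.mem_image.mp hp
    obtain ⟨hq1, hq2⟩ := Finset.mem_filter.mp hq
    obtain ⟨hx, hyz⟩ := Finset.mem_product.mp hq1
    obtain ⟨hy, hz⟩ := Finset.mem_product.mp hyz
    refine ⟨(hinv _ hx _ hy).sum_gs g, (hinv _ hx _ hz).sum_gs g, ?_⟩
    exact no_triple δ t ω hω hind g hg P hinv hwin _ _ _ hx hy hz hq2.1 hq2.2.1 hq2.2.2
  obtain ⟨X, hX1, hX2⟩ := partA α hα l F hF
  have htri : ∀ x ∈ P, ∀ y ∈ P, ∀ z ∈ P, x ≠ y → y ≠ z → x ≠ z →
      ((ptC g X y - ptC g X x) * conj (ptC g X z - ptC g X x)).im ≠ 0 := by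
    intro x hx y hy z hz hxy hyz hxz
    rw [← C1_Cr]
    apply hX2 (_, _)
    apply Finset.mem_image.mpr
    refine ⟨(x, (y, z)), ?_, rfl⟩
    apply Finset.mem_filter.mpr
    refine ⟨?_, hxy, hyz, hxz⟩
    simp [hx, hy, hz]
  have hinj : Set.InjOn (ptC g X) (P : Set (Cfg J Hc l)) := by
    intro x hx y hy hxy
    by_contra hne
    have : ∃ z ∈ P, z ∉ ({x, y} : Finset (Cfg J Hc l)) := by
      by_contra hcon
      push Not at hcon
      have := Finset.card_le_card (show P ⊆ {x, y} from hcon)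
      have h2 := Finset.card_le_two (a := x) (b := y)
      omega
    obtain ⟨z, hz, hzn⟩ := this
    simp only [Finset.mem_insert, Finset.mem_singleton, not_or] at hzn
    apply htri x hx y hy z hz hne (Ne.symm hzn.2) (Ne.symm hzn.1)
    rw [hxy]
    simp
  refine ⟨P.image (ptC g X), Finset.card_image_of_injOn hinj, ?_, ?_⟩
  · intro x hx y hy z hz hxy hyz hxz
    obtain ⟨x', hx', rfl⟩ := Finset.mem_image.mp hx
    obtain ⟨y', hy', rfl⟩ := Finset.mem_image.mp hy
    obtain ⟨z', hz', rfl⟩ := Finset.mem_image.mp hz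
    exact htri x' hx' y' hy' z' hz' (fun h => hxy (by rw [h])) (fun h => hyz (by rw [h]))
      (fun h => hxz (by rw [h]))
  · have hcard : ((mv δ P).image (Prod.map (ptC g X) (ptC g X))).card = (mv δ P).card := by
      apply Finset.card_image_of_injOn
      intro q hq q' hq' h
      have hq := (mem_mv δ P q).mp hq
      have hq' := (mem_mv δ P q').mp hq'
      have h1 : ptC g X q.1 = ptC g X q'.1 := congrArg Prod.fst h
      have h2 : ptC g X q.2 = ptC g X q'.2 := congrArg Prod.snd h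
      exact Prod.ext (hinj hq.1 hq'.1 h1) (hinj hq.2.1 hq'.2.1 h2)
    rw [← hcard]
    apply Finset.card_le_card
    intro p hp
    obtain ⟨q, hq, rfl⟩ := Finset.mem_image.mp hp
    have hq := (mem_mv δ P q).mp hq
    apply Finset.mem_filter.mpr
    constructor
    · apply Finset.mem_product.mpr
      exact ⟨Finset.mem_image_of_mem _ hq.1, Finset.mem_image_of_mem _ hq.2.1⟩
    · obtain ⟨S, j, hj, hs⟩ := hq.2.2.sum g X
      have hs' : ptC g X q.2 - ptC g X q.1 = (gs g (δ j) : ℂ) * (X (insert j S) - X S) := hs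
      change ‖ptC g X q.1 - ptC g X q.2‖ = 1
      rw [norm_sub_rev, hs', norm_mul, hX1 S j hj, Complex.norm_real, Real.norm_eq_abs,
        abs_of_pos (hpos j)]
      exact mul_one_div_cancel (hpos j).ne'

theorem main_complex (C : ℝ) (N : ℕ) : ∃ S : Finset ℂ, N ≤ S.card ∧
    (∀ x ∈ S, ∀ y ∈ S, ∀ z ∈ S, x ≠ y → y ≠ z → x ≠ z → ((y - x) * conj (z - x)).im ≠ 0) ∧
    C * (S.card : ℝ) * Real.log (S.card : ℝ) <
      (((S ×ˢ S).filter (fun p => ‖p.1 - p.2‖ = 1)).card : ℝ) := by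
  classical
  obtain ⟨r, hr, hnum⟩ := numeric C (max N 3)
  obtain ⟨hp1, hp2⟩ := params_ok r hr
  have hb : 0 < 16 ^ r := by positivity
  have hcJ : Fintype.card (Fin r → Fin (16 ^ r)) = (16 ^ r) ^ r := by simp
  have heven : ∃ l, (16 ^ r) ^ r = 2 * (l + 1) := by
    have h2 : 2 ∣ (16 ^ r) ^ r := by
      apply Dvd.dvd.trans _ (dvd_pow_self (16 ^ r) (by omega : r ≠ 0))
      exact Dvd.dvd.trans (by norm_num) (dvd_pow_self 16 (by omega : r ≠ 0))
    obtain ⟨k, hk⟩ := h2
    have hpos : 0 < (16 ^ r) ^ r := by positivity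
    refine ⟨k - 1, ?_⟩
    omega
  obtain ⟨l, hl⟩ := heven
  have hcH : Fintype.card (HC r (16 ^ r)) = r * (16 ^ r) ^ (r - 1) := card_HC r _ hb (by omega)
  have hdl : ∀ j, (dl r (16 ^ r) j).card = r := card_dl r _ hb
  obtain ⟨P, hPne, hinv, hwin, hcount⟩ := exists_cell (l := l) (dl r (16 ^ r)) r hdl (by omega)
    (4 * r ^ 2) (4 * r * (r * (16 ^ r) ^ (r - 1))) (by rw [hcH]) (by positivity)
  have hind : ∀ B : Finset (Fin r → Fin (16 ^ r)), B.card ≤ 2 * (4 * r ^ 2) →
      LinearIndepOn ℚ (fun j => ivec (dl r (16 ^ r) j)) (B : Set (Fin r → Fin (16 ^ r))) := by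
    intro B hB
    exact indep_dl r _ hb B (by omega)
  have hn : 0 < P.card := Finset.card_pos.mpr hPne
  have hm : (mv (dl r (16 ^ r)) P).card ≤ P.card * P.card := by
    rw [← Finset.card_product]
    apply Finset.card_le_card
    intro q hq
    have hq := (mem_mv _ P q).mp hq
    exact Finset.mem_product.mpr ⟨hq.1, hq.2.1⟩
  have hv : 1 ≤ Fintype.card (Vx (Fin r → Fin (16 ^ r)) l) := by
    have hle : l ≤ (Finset.univ : Finset (Fin r → Fin (16 ^ r))).card := by
      rw [Finset.card_univ, hcJ, hl]; omega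
    obtain ⟨S, _, hS⟩ := Finset.exists_subset_card_eq hle
    have : Nonempty (Vx (Fin r → Fin (16 ^ r)) l) := ⟨⟨S, Or.inl hS⟩⟩
    exact Fintype.card_pos
  have hvle := card_Vx_le (Fin r → Fin (16 ^ r)) l (by rw [hcJ, hl])
  have hPc : P.card ≤ 2 ^ ((r * (16 ^ r) ^ (r - 1)) * Fintype.card (Vx (Fin r → Fin (16 ^ r)) l)) := by
    have := Finset.card_le_univ P
    rw [card_Cfg, hcH] at this
    exact this
  have hmain : (16 ^ r) ^ r * Fintype.card (Vx (Fin r → Fin (16 ^ r)) l) * P.card ≤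
      2 ^ (2 * r + 3) * (mv (dl r (16 ^ r)) P).card := by
    rw [hcJ] at hcount hvle
    calc (16 ^ r) ^ r * Fintype.card (Vx (Fin r → Fin (16 ^ r)) l) * P.card
        ≤ (2 * (l + 1)) * (2 * ((16 ^ r) ^ r).choose (l + 1)) * P.card := by
          rw [hl]
          rw [hl] at hvle
          gcongr
      _ = 4 * ((l + 1) * ((16 ^ r) ^ r).choose (l + 1) * P.card) := by ring
      _ ≤ 4 * (2 ^ (2 * r + 1) * (mv (dl r (16 ^ r)) P).card) := by gcongr
      _ = 2 ^ (2 * r + 3) * (mv (dl r (16 ^ r)) P).card := by ring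
  obtain ⟨hN, hlog⟩ := hnum _ _ _ hn hv hm hPc hmain
  obtain ⟨S, hS1, hS2, hS3⟩ := C1_core (dl r (16 ^ r)) (4 * r ^ 2)
    (4 * r * (r * (16 ^ r) ^ (r - 1)))
    (fun j => Finset.card_pos.mp (by rw [hdl j]; omega)) (by nlinarith) hp1 hind P hinv hwin
    (le_trans (le_max_right _ _) hN)
  refine ⟨S, ?_, hS2, ?_⟩
  · rw [hS1]
    exact le_trans (le_max_left _ _) hN
  · rw [hS1]
    refine lt_of_lt_of_le hlog ?_
    exact_mod_cast hS3

end Pool.Agent.UD
end
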